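import Mathlib

set_option autoImplicit false

namespace Pool.Agent.W701.Perm

open Filter Topology Finset

variable {𝕜 : Type*} [RCLike 𝕜]

/-- one greedy step inequality -/
theorem greedy_step (T r : ℝ) (s v : 𝕜) (hr : 0 ≤ r) (hT : 0 ≤ T)
    (hs : ‖s‖ ≤ T + Real.sqrt r) (hv : ‖s‖ < T ∨ RCLike.re (star s * v) ≤ 0) :
    ‖s + v‖ ≤ T + Real.sqrt (r + ‖v‖ ^ 2) := by
  rcases hv with hv | hv
  · have h1 : ‖v‖ ≤ Real.sqrt (r + ‖v‖ ^ 2) := by
      apply Real.le_sqrt_of_sq_le
      linarith
    linarith [norm_add_le s v]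
  · have h1 : ‖s + v‖ ^ 2 ≤ ‖s‖ ^ 2 + ‖v‖ ^ 2 := by
      have h := RCLike.norm_sq_eq_def (K := 𝕜) (z := s + v)
      have h2 : ‖s + v‖ ^ 2 = ‖s‖ ^ 2 + ‖v‖ ^ 2 + 2 * RCLike.re (star s * v) := by
        rw [← RCLike.normSq_eq_def', ← RCLike.normSq_eq_def', ← RCLike.normSq_eq_def']
        rw [RCLike.normSq_add]
        have : RCLike.re (s * star v) = RCLike.re (star s * v) := by
          have := RCLike.conj_re (K := 𝕜) (star s * v)
          rw [← this]
          simp [mul_comm]
        have e : RCLike.re (s * (starRingEnd 𝕜) v) = RCLike.re (star s * v) := this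
        rw [e]
      rw [h2]; linarith
    have h3 : ‖s‖ ^ 2 ≤ (T + Real.sqrt r) ^ 2 := by
      apply pow_le_pow_left₀ (norm_nonneg _) hs
    have h4 : Real.sqrt r ^ 2 = r := Real.sq_sqrt hr
    have h5 : Real.sqrt (r + ‖v‖ ^ 2) ^ 2 = r + ‖v‖ ^ 2 := Real.sq_sqrt (by positivity)
    have h6 : Real.sqrt r ≤ Real.sqrt (r + ‖v‖ ^ 2) := Real.sqrt_le_sqrt (by nlinarith [sq_nonneg ‖v‖])
    apply le_of_sq_le_sq _ (by positivity)
    nlinarith [Real.sqrt_nonneg r]

/-- The greedy rearrangement of finitely many scalars inside a block. -/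
theorem greedy (a : ℕ → 𝕜) (m L : ℕ) : ∃ p : Equiv.Perm ℕ,
    (∀ i, i ∈ Finset.Ico m (m + L) ↔ p i ∈ Finset.Ico m (m + L)) ∧
    ∀ k ≤ L, ‖∑ i ∈ Finset.Ico m (m + k), a (p i)‖ ≤
      ‖∑ i ∈ Finset.Ico m (m + L), a i‖ + Real.sqrt (∑ i ∈ Finset.Ico m (m + L), ‖a i‖ ^ 2) := by
  classical
  set T : ℝ := ‖∑ i ∈ Finset.Ico m (m + L), a i‖ with hT
  have key : ∀ k ≤ L, ∃ p : Equiv.Perm ℕ,
      (∀ i, i ∈ Finset.Ico m (m + L) ↔ p i ∈ Finset.Ico m (m + L)) ∧
      ∀ j ≤ k, ‖∑ i ∈ Finset.Ico m (m + j), a (p i)‖ ≤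
        T + Real.sqrt (∑ i ∈ Finset.Ico m (m + j), ‖a (p i)‖ ^ 2) := by
    intro k
    induction k with
    | zero =>
      intro _
      refine ⟨Equiv.refl _, fun i => Iff.rfl, fun j hj => ?_⟩
      have : j = 0 := by omega
      subst this
      simp [hT]
    | succ k ih =>
      intro hk
      obtain ⟨p, hp1, hp2⟩ := ih (by omega)
      -- choose the next index
      have hsum : ∑ i ∈ Finset.Ico m (m + L), a (p i) = ∑ i ∈ Finset.Ico m (m + L), a i := by
        refine Finset.sum_bij (fun i _ => p i) (fun i hi => (hp1 i).1 hi)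
          (fun i _ j _ h => p.injective h) (fun j hj => ⟨p.symm j, ?_, by simp⟩) (fun i _ => rfl)
        rw [hp1]; simpa using hj
      set s : 𝕜 := ∑ i ∈ Finset.Ico m (m + k), a (p i) with hs
      have hsplit : s + ∑ i ∈ Finset.Ico (m + k) (m + L), a (p i)
          = ∑ i ∈ Finset.Ico m (m + L), a i := by
        rw [hs, Finset.sum_Ico_consecutive _ (by omega) (by omega), hsum]
      obtain ⟨i0, hi0, hi0'⟩ : ∃ i0 ∈ Finset.Ico (m + k) (m + L),
          ‖s‖ < T ∨ RCLike.re (star s * a (p i0)) ≤ 0 := by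
        by_cases hsT : ‖s‖ < T
        · exact ⟨m + k, Finset.mem_Ico.2 ⟨le_rfl, by omega⟩, Or.inl hsT⟩
        · push Not at hsT
          by_contra hcon
          push Not at hcon
          have h1 : 0 < ∑ i ∈ Finset.Ico (m + k) (m + L), RCLike.re (star s * a (p i)) := by
            apply Finset.sum_pos (fun i hi => (hcon i hi).2)
            exact ⟨m + k, Finset.mem_Ico.2 ⟨le_rfl, by omega⟩⟩
          have h2 : ∑ i ∈ Finset.Ico (m + k) (m + L), RCLike.re (star s * a (p i))
              = RCLike.re (star s * (∑ i ∈ Finset.Ico m (m + L), a i)) - ‖s‖ ^ 2 := by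
            have this : RCLike.re (star s * s) = ‖s‖ ^ 2 := by
              have : star s * s = ((‖s‖ ^ 2 : ℝ) : 𝕜) := by
                have := RCLike.conj_mul s
                simpa using this
              rw [this, RCLike.ofReal_re]
            rw [← map_sum, ← Finset.mul_sum, ← hsplit, mul_add, map_add, this]; ring
          have h3 : RCLike.re (star s * (∑ i ∈ Finset.Ico m (m + L), a i)) ≤ ‖s‖ * T := by
            refine (RCLike.re_le_norm _).trans ?_
            rw [norm_mul, norm_star]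
          nlinarith [norm_nonneg s]
      let p' : Equiv.Perm ℕ := (Equiv.swap (m + k) i0).trans p
      have hi0m := Finset.mem_Ico.1 hi0
      have hp'1 : ∀ i, i ∈ Finset.Ico m (m + L) ↔ p' i ∈ Finset.Ico m (m + L) := by
        intro i
        show _ ↔ p (Equiv.swap (m + k) i0 i) ∈ _
        rw [← hp1]
        rcases eq_or_ne i (m + k) with h | h
        · subst h
          rw [Equiv.swap_apply_left]
          simp only [Finset.mem_Ico]; omega
        · rcases eq_or_ne i i0 with h' | h'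
          · subst h'
            rw [Equiv.swap_apply_right]
            simp only [Finset.mem_Ico]; omega
          · rw [Equiv.swap_apply_of_ne_of_ne h h']
      have hp'2 : ∀ i < m + k, p' i = p i := by
        intro i hi
        show p (Equiv.swap (m + k) i0 i) = p i
        rw [Equiv.swap_apply_of_ne_of_ne (by omega) (by omega)]
      have hp'3 : p' (m + k) = p i0 := by
        show p (Equiv.swap (m + k) i0 (m + k)) = p i0
        rw [Equiv.swap_apply_left]
      refine ⟨p', hp'1, fun j hj => ?_⟩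
      rcases Nat.lt_or_ge j (k + 1) with h | h
      · have e1 : ∑ i ∈ Finset.Ico m (m + j), a (p' i) = ∑ i ∈ Finset.Ico m (m + j), a (p i) := by
          refine Finset.sum_congr rfl (fun i hi => ?_)
          rw [hp'2 i (by have := Finset.mem_Ico.1 hi; omega)]
        have e2 : ∑ i ∈ Finset.Ico m (m + j), ‖a (p' i)‖ ^ 2
            = ∑ i ∈ Finset.Ico m (m + j), ‖a (p i)‖ ^ 2 := by
          refine Finset.sum_congr rfl (fun i hi => ?_)
          rw [hp'2 i (by have := Finset.mem_Ico.1 hi; omega)]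
        rw [e1, e2]
        exact hp2 j (by omega)
      · have hj' : j = k + 1 := by omega
        subst hj'
        have e1 : ∑ i ∈ Finset.Ico m (m + (k + 1)), a (p' i) = s + a (p i0) := by
          rw [← add_assoc, Finset.sum_Ico_succ_top (by omega), hp'3]
          congr 1
          refine Finset.sum_congr rfl (fun i hi => ?_)
          rw [hp'2 i (Finset.mem_Ico.1 hi).2]
        have e2 : ∑ i ∈ Finset.Ico m (m + (k + 1)), ‖a (p' i)‖ ^ 2
            = ∑ i ∈ Finset.Ico m (m + k), ‖a (p i)‖ ^ 2 + ‖a (p i0)‖ ^ 2 := by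
          rw [← add_assoc, Finset.sum_Ico_succ_top (by omega), hp'3]
          congr 1
          refine Finset.sum_congr rfl (fun i hi => ?_)
          rw [hp'2 i (Finset.mem_Ico.1 hi).2]
        rw [e1, e2]
        exact greedy_step T _ s _ (Finset.sum_nonneg (fun _ _ => by positivity)) (norm_nonneg _)
          (hp2 k le_rfl) hi0'
  obtain ⟨p, hp1, hp2⟩ := key L le_rfl
  refine ⟨p, hp1, fun k hk => (hp2 k hk).trans ?_⟩
  gcongr
  have hsum : ∑ i ∈ Finset.Ico m (m + L), ‖a (p i)‖ ^ 2 = ∑ i ∈ Finset.Ico m (m + L), ‖a i‖ ^ 2 := by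
    refine Finset.sum_bij (fun i _ => p i) (fun i hi => (hp1 i).1 hi)
      (fun i _ j _ h => p.injective h) (fun j hj => ⟨p.symm j, ?_, by simp⟩) (fun i _ => rfl)
    rw [hp1]; simpa using hj
  rw [← hsum]
  refine Finset.sum_le_sum_of_subset_of_nonneg (fun i hi => ?_) (fun _ _ _ => by positivity)
  have := Finset.mem_Ico.1 hi
  rw [Finset.mem_Ico]; omega

end Pool.Agent.W701.Perm
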