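import Mathlib
import Pool.Agent.W701.PermA

set_option autoImplicit false

namespace Pool.Agent.W701.Perm

open Filter Topology Finset

variable {𝕜 : Type*} [RCLike 𝕜] {H : Type*} [NormedAddCommGroup H] [InnerProductSpace 𝕜 H]

/-- the block of index `n` -/
def B (n : ℕ) : Finset ℕ := Finset.Ico (n ^ 2) ((n + 1) ^ 2)

theorem mem_B (n i : ℕ) : i ∈ B n ↔ Nat.sqrt i = n := by
  unfold B
  rw [Finset.mem_Ico, ← Nat.le_sqrt', ← Nat.sqrt_lt']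
  omega

theorem B_eq (n : ℕ) : B n = Finset.Ico (n ^ 2) (n ^ 2 + (2 * n + 1)) := by
  unfold B; congr 1; ring

theorem card_B (n : ℕ) : (B n).card = 2 * n + 1 := by
  rw [B_eq]; simp

/-- `t = 1/√d` with `d = 2n+1` -/
noncomputable def t (n : ℕ) : ℝ := (Real.sqrt (2 * n + 1))⁻¹

/-- `s = t/(1+dt)` -/
noncomputable def s (n : ℕ) : ℝ := (Real.sqrt (2 * n + 1) + (2 * n + 1))⁻¹

theorem st_rel (n : ℕ) : s n * (1 + (2 * n + 1) * t n) = t n := by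
  unfold s t
  have h : 0 < Real.sqrt (2 * n + 1) := Real.sqrt_pos.2 (by positivity)
  have h2 : Real.sqrt (2 * n + 1) * Real.sqrt (2 * n + 1) = 2 * n + 1 :=
    Real.mul_self_sqrt (by positivity)
  set r := Real.sqrt (2 * n + 1) with hr
  rw [← h2]
  field_simp

variable (e : ℕ → H)

/-- the block vector -/
noncomputable def u (n : ℕ) : H := ∑ j ∈ B n, e j

/-- the sequence -/
noncomputable def xx (𝕜 : Type*) [RCLike 𝕜] {H : Type*} [NormedAddCommGroup H]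
    [InnerProductSpace 𝕜 H] (e : ℕ → H) (i : ℕ) : H :=
  e i + ((t (Nat.sqrt i) : ℝ) : 𝕜) • u e (Nat.sqrt i)

/-- the dual vectors -/
noncomputable def ff (𝕜 : Type*) [RCLike 𝕜] {H : Type*} [NormedAddCommGroup H]
    [InnerProductSpace 𝕜 H] (e : ℕ → H) (i : ℕ) : H :=
  e i - ((s (Nat.sqrt i) : ℝ) : 𝕜) • u e (Nat.sqrt i)

variable {e}

theorem inner_e_u (he : Orthonormal 𝕜 e) (i n : ℕ) :
    inner 𝕜 (e i) (u e n) = if Nat.sqrt i = n then (1 : 𝕜) else 0 := by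
  classical
  unfold u
  rw [inner_sum]
  have : ∀ j ∈ B n, inner 𝕜 (e i) (e j) = if i = j then (1 : 𝕜) else 0 := fun j _ =>
    orthonormal_iff_ite.1 he i j
  rw [Finset.sum_congr rfl this, Finset.sum_ite_eq]
  simp only [mem_B]

theorem inner_u_e (he : Orthonormal 𝕜 e) (i n : ℕ) :
    inner 𝕜 (u e n) (e i) = if Nat.sqrt i = n then (1 : 𝕜) else 0 := by
  rw [← inner_conj_symm, inner_e_u he]
  split_ifs <;> simp

theorem inner_u_u (he : Orthonormal 𝕜 e) (n m : ℕ) :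
    inner 𝕜 (u e n) (u e m) = if n = m then ((2 * n + 1 : ℕ) : 𝕜) else 0 := by
  classical
  conv_lhs => rw [show u e n = ∑ j ∈ B n, e j from rfl]
  rw [sum_inner]
  have : ∀ j ∈ B n, inner 𝕜 (e j) (u e m) = if n = m then (1 : 𝕜) else 0 := by
    intro j hj
    rw [inner_e_u he, (mem_B n j).1 hj]
  rw [Finset.sum_congr rfl this, Finset.sum_const, card_B]
  split_ifs <;> simp

theorem biorth (he : Orthonormal 𝕜 e) (i j : ℕ) :
    inner 𝕜 (ff 𝕜 e i) (xx 𝕜 e j) = if i = j then (1 : 𝕜) else 0 := by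
  classical
  unfold ff xx
  rw [inner_sub_left, inner_add_right, inner_add_right, inner_smul_right, inner_smul_left,
    inner_smul_left, inner_smul_right, orthonormal_iff_ite.1 he i j, inner_e_u he, inner_u_e he,
    inner_u_u he]
  have hs : (starRingEnd 𝕜) (((s (Nat.sqrt i) : ℝ) : 𝕜)) = ((s (Nat.sqrt i) : ℝ) : 𝕜) :=
    RCLike.conj_ofReal _
  rw [hs]
  by_cases h : Nat.sqrt i = Nat.sqrt j
  · rw [if_pos h, if_pos h.symm, if_pos h, h]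
    have hst := st_rel (Nat.sqrt j)
    have hst' : ((s (Nat.sqrt j) : ℝ) : 𝕜) * (1 + (2 * ((Nat.sqrt j : ℕ) : 𝕜) + 1) *
        ((t (Nat.sqrt j) : ℝ) : 𝕜)) = ((t (Nat.sqrt j) : ℝ) : 𝕜) := by
      have := congrArg (fun r : ℝ => (r : 𝕜)) hst
      push_cast at this
      exact this
    push_cast
    linear_combination -hst'
  · have hij : i ≠ j := fun hij => h (by rw [hij])
    rw [if_neg h, if_neg (Ne.symm h), if_neg h, if_neg hij]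
    simp

/-- norm of a finite combination of orthonormal vectors -/
theorem norm_comb (he : Orthonormal 𝕜 e) (A : Finset ℕ) (c : ℕ → 𝕜) :
    ‖∑ i ∈ A, c i • e i‖ = Real.sqrt (∑ i ∈ A, ‖c i‖ ^ 2) := by
  have h := he.inner_sum c c A
  have h2 : ‖∑ i ∈ A, c i • e i‖ ^ 2 = ∑ i ∈ A, ‖c i‖ ^ 2 := by
    have h3 := inner_self_eq_norm_sq_to_K (𝕜 := 𝕜) (∑ i ∈ A, c i • e i)
    rw [h] at h3
    have h4 : (∑ i ∈ A, (starRingEnd 𝕜) (c i) * c i) = ((∑ i ∈ A, ‖c i‖ ^ 2 : ℝ) : 𝕜) := by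
      push_cast
      exact Finset.sum_congr rfl (fun i _ => RCLike.conj_mul (c i))
    rw [h4] at h3
    exact_mod_cast h3.symm
  rw [← h2, Real.sqrt_sq (norm_nonneg _)]

theorem norm_u (he : Orthonormal 𝕜 e) (n : ℕ) : ‖u e n‖ = Real.sqrt (2 * n + 1) := by
  have := norm_comb he (B n) (fun _ => (1 : 𝕜))
  simp only [one_smul, norm_one, one_pow, Finset.sum_const, card_B] at this
  unfold u
  rw [this]
  simp

/-- block component -/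
noncomputable def yy (𝕜 : Type*) [RCLike 𝕜] {H : Type*} [NormedAddCommGroup H]
    [InnerProductSpace 𝕜 H] (e : ℕ → H) (z : H) (n : ℕ) : H :=
  ∑ i ∈ B n, (inner 𝕜 (e i) z) • e i

theorem coef_eq (z : H) (i : ℕ) :
    inner 𝕜 (ff 𝕜 e i) z = inner 𝕜 (e i) z - ((s (Nat.sqrt i) : ℝ) : 𝕜) *
      inner 𝕜 (u e (Nat.sqrt i)) z := by
  unfold ff
  rw [inner_sub_left, inner_smul_left]
  have hs : (starRingEnd 𝕜) (((s (Nat.sqrt i) : ℝ) : 𝕜)) = ((s (Nat.sqrt i) : ℝ) : 𝕜) :=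
    RCLike.conj_ofReal _
  rw [hs]

theorem sum_comb (A : Finset ℕ) (n : ℕ) (hA : A ⊆ B n) (c : ℕ → 𝕜) :
    ∑ i ∈ A, c i • xx 𝕜 e i = ∑ i ∈ A, c i • e i + (((t n : ℝ) : 𝕜) * ∑ i ∈ A, c i) • u e n := by
  have : ∀ i ∈ A, c i • xx 𝕜 e i = c i • e i + (((t n : ℝ) : 𝕜) * c i) • u e n := by
    intro i hi
    have h := (mem_B n i).1 (hA hi)
    unfold xx
    rw [h, smul_add, smul_smul, mul_comm]
  rw [Finset.sum_congr rfl this, Finset.sum_add_distrib, ← Finset.sum_smul, Finset.mul_sum]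

theorem inner_u_z (z : H) (n : ℕ) :
    inner 𝕜 (u e n) z = ∑ i ∈ B n, inner 𝕜 (e i) z := by
  unfold u; rw [sum_inner]

theorem block_sum (z : H) (n : ℕ) :
    ∑ i ∈ B n, (inner 𝕜 (ff 𝕜 e i) z) • xx 𝕜 e i = yy 𝕜 e z n := by
  rw [sum_comb (B n) n subset_rfl]
  have h1 : ∀ i ∈ B n, (inner 𝕜 (ff 𝕜 e i) z) = inner 𝕜 (e i) z - ((s n : ℝ) : 𝕜) *
      inner 𝕜 (u e n) z := by
    intro i hi
    rw [coef_eq, (mem_B n i).1 hi]
  have h2 : ∑ i ∈ B n, (inner 𝕜 (ff 𝕜 e i) z) • e i = yy 𝕜 e z n -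
      (((s n : ℝ) : 𝕜) * inner 𝕜 (u e n) z) • u e n := by
    unfold yy
    conv_rhs => rw [show u e n = ∑ j ∈ B n, e j from rfl]
    rw [Finset.smul_sum, ← Finset.sum_sub_distrib]
    refine Finset.sum_congr rfl (fun i hi => ?_)
    rw [h1 i hi, sub_smul]
    rfl
  have h3 : ∑ i ∈ B n, (inner 𝕜 (ff 𝕜 e i) z) = (1 - (2 * (n : 𝕜) + 1) * ((s n : ℝ) : 𝕜)) *
      inner 𝕜 (u e n) z := by
    rw [Finset.sum_congr rfl h1, Finset.sum_sub_distrib, ← inner_u_z, Finset.sum_const, card_B]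
    rw [nsmul_eq_mul]
    push_cast
    ring
  rw [h2, h3, sub_add_eq_add_sub, add_sub_assoc, ← sub_smul]
  have hst := st_rel n
  have hst' : ((s n : ℝ) : 𝕜) * (1 + (2 * (n : 𝕜) + 1) * ((t n : ℝ) : 𝕜)) = ((t n : ℝ) : 𝕜) := by
    have := congrArg (fun r : ℝ => (r : 𝕜)) hst
    push_cast at this
    exact this
  have : ((t n : ℝ) : 𝕜) * ((1 - (2 * (n : 𝕜) + 1) * ((s n : ℝ) : 𝕜)) * inner 𝕜 (u e n) z) -
      ((s n : ℝ) : 𝕜) * inner 𝕜 (u e n) z = 0 := by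
    linear_combination (-(inner 𝕜 (u e n) z)) * hst'
  rw [this, zero_smul, add_zero]

theorem inner_u_bound (he : Orthonormal 𝕜 e) (z : H) (n : ℕ) :
    ‖(inner 𝕜 (u e n) z : 𝕜)‖ ≤ Real.sqrt (2 * n + 1) * ‖yy 𝕜 e z n‖ := by
  have h : inner 𝕜 (u e n) z = (inner 𝕜 (u e n) (yy 𝕜 e z n) : 𝕜) := by
    rw [inner_u_z]
    unfold yy
    rw [inner_sum]
    refine Finset.sum_congr rfl (fun i hi => ?_)
    rw [inner_smul_right, inner_u_e he, if_pos ((mem_B n i).1 hi), mul_one]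
  rw [h, ← norm_u he n]
  exact norm_inner_le_norm _ _

theorem s_facts (n : ℕ) : 0 ≤ s n ∧ s n * (2 * n + 1) ≤ 1 ∧
    (1 - (2 * n + 1) * s n) * Real.sqrt (2 * n + 1) ≤ 1 ∧ 0 ≤ 1 - (2 * n + 1) * s n := by
  unfold s
  have h : 0 < Real.sqrt (2 * n + 1) := Real.sqrt_pos.2 (by positivity)
  have h2 : Real.sqrt (2 * n + 1) * Real.sqrt (2 * n + 1) = 2 * n + 1 :=
    Real.mul_self_sqrt (by positivity)
  set r := Real.sqrt (2 * n + 1) with hr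
  rw [← h2]
  refine ⟨by positivity, ?_, ?_, ?_⟩
  · rw [inv_mul_le_iff₀ (by positivity)]; nlinarith
  · have : (1 - r * r * (r + r * r)⁻¹) * r = r / (1 + r) := by field_simp; ring
    rw [this, div_le_one (by positivity)]; linarith
  · have : 1 - r * r * (r + r * r)⁻¹ = 1 / (1 + r) := by field_simp; ring
    rw [this]; positivity

theorem coef_norm (he : Orthonormal 𝕜 e) (z : H) (n : ℕ) :
    Real.sqrt (∑ i ∈ B n, ‖(inner 𝕜 (ff 𝕜 e i) z : 𝕜)‖ ^ 2) ≤ 2 * ‖yy 𝕜 e z n‖ := by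
  rw [← norm_comb he]
  have h1 : ∀ i ∈ B n, (inner 𝕜 (ff 𝕜 e i) z) = inner 𝕜 (e i) z - ((s n : ℝ) : 𝕜) *
      inner 𝕜 (u e n) z := by
    intro i hi
    rw [coef_eq, (mem_B n i).1 hi]
  have h2 : ∑ i ∈ B n, (inner 𝕜 (ff 𝕜 e i) z) • e i = yy 𝕜 e z n -
      (((s n : ℝ) : 𝕜) * inner 𝕜 (u e n) z) • u e n := by
    unfold yy
    conv_rhs => rw [show u e n = ∑ j ∈ B n, e j from rfl]
    rw [Finset.smul_sum, ← Finset.sum_sub_distrib]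
    refine Finset.sum_congr rfl (fun i hi => ?_)
    rw [h1 i hi, sub_smul]
    rfl
  rw [h2]
  obtain ⟨s0, s1, _, _⟩ := s_facts n
  have h3 := inner_u_bound he z n
  have h5 : Real.sqrt (2 * n + 1) * Real.sqrt (2 * n + 1) = 2 * n + 1 :=
    Real.mul_self_sqrt (by positivity)
  calc ‖yy 𝕜 e z n - (((s n : ℝ) : 𝕜) * inner 𝕜 (u e n) z) • u e n‖
      ≤ ‖yy 𝕜 e z n‖ + ‖(((s n : ℝ) : 𝕜) * inner 𝕜 (u e n) z) • u e n‖ := norm_sub_le _ _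
    _ = ‖yy 𝕜 e z n‖ + s n * ‖(inner 𝕜 (u e n) z : 𝕜)‖ * Real.sqrt (2 * n + 1) := by
        rw [norm_smul, norm_mul, RCLike.norm_ofReal, abs_of_nonneg s0, norm_u he]
    _ ≤ ‖yy 𝕜 e z n‖ + s n * (Real.sqrt (2 * n + 1) * ‖yy 𝕜 e z n‖) * Real.sqrt (2 * n + 1) := by
        gcongr
    _ = ‖yy 𝕜 e z n‖ + (s n * (2 * n + 1)) * ‖yy 𝕜 e z n‖ := by
        linear_combination (s n * ‖yy 𝕜 e z n‖) * h5
    _ ≤ ‖yy 𝕜 e z n‖ + 1 * ‖yy 𝕜 e z n‖ := by gcongr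
    _ = 2 * ‖yy 𝕜 e z n‖ := by ring

theorem coef_sum (he : Orthonormal 𝕜 e) (z : H) (n : ℕ) :
    ‖∑ i ∈ B n, (inner 𝕜 (ff 𝕜 e i) z : 𝕜)‖ ≤ ‖yy 𝕜 e z n‖ := by
  have h1 : ∀ i ∈ B n, (inner 𝕜 (ff 𝕜 e i) z) = inner 𝕜 (e i) z - ((s n : ℝ) : 𝕜) *
      inner 𝕜 (u e n) z := by
    intro i hi
    rw [coef_eq, (mem_B n i).1 hi]
  have h3 : ∑ i ∈ B n, (inner 𝕜 (ff 𝕜 e i) z) = ((1 - (2 * n + 1) * s n : ℝ) : 𝕜) *
      inner 𝕜 (u e n) z := by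
    rw [Finset.sum_congr rfl h1, Finset.sum_sub_distrib, ← inner_u_z, Finset.sum_const, card_B]
    rw [nsmul_eq_mul]
    push_cast
    ring
  obtain ⟨s0, s1, s2, s3⟩ := s_facts n
  rw [h3, norm_mul, RCLike.norm_ofReal, abs_of_nonneg s3]
  calc (1 - (2 * n + 1) * s n) * ‖(inner 𝕜 (u e n) z : 𝕜)‖
      ≤ (1 - (2 * n + 1) * s n) * (Real.sqrt (2 * n + 1) * ‖yy 𝕜 e z n‖) := by
        gcongr
        exact inner_u_bound he z n
    _ = ((1 - (2 * n + 1) * s n) * Real.sqrt (2 * n + 1)) * ‖yy 𝕜 e z n‖ := by ring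
    _ ≤ 1 * ‖yy 𝕜 e z n‖ := by gcongr
    _ = _ := one_mul _

/-- the partial sums inside a block, in the greedy order, are under control -/
theorem part_bound (he : Orthonormal 𝕜 e) (z : H) (n : ℕ) (A : Finset ℕ) (hA : A ⊆ B n)
    (h : ‖∑ i ∈ A, (inner 𝕜 (ff 𝕜 e i) z : 𝕜)‖ ≤
      ‖∑ i ∈ B n, (inner 𝕜 (ff 𝕜 e i) z : 𝕜)‖ +
        Real.sqrt (∑ i ∈ B n, ‖(inner 𝕜 (ff 𝕜 e i) z : 𝕜)‖ ^ 2)) :
    ‖∑ i ∈ A, (inner 𝕜 (ff 𝕜 e i) z : 𝕜) • xx 𝕜 e i‖ ≤ 5 * ‖yy 𝕜 e z n‖ := by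
  rw [sum_comb A n hA]
  have e1 := coef_norm he z n
  have e2 := coef_sum he z n
  have e3 : ‖∑ i ∈ A, (inner 𝕜 (ff 𝕜 e i) z : 𝕜) • e i‖ ≤ 2 * ‖yy 𝕜 e z n‖ := by
    rw [norm_comb he]
    refine le_trans (Real.sqrt_le_sqrt ?_) e1
    exact Finset.sum_le_sum_of_subset_of_nonneg hA (fun _ _ _ => by positivity)
  have e4 : t n * Real.sqrt (2 * n + 1) = 1 := by
    unfold t
    exact inv_mul_cancel₀ (Real.sqrt_pos.2 (by positivity)).ne'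
  have e5 : 0 ≤ t n := by unfold t; positivity
  refine (norm_add_le _ _).trans ?_
  rw [norm_smul, norm_mul, RCLike.norm_ofReal, abs_of_nonneg e5, norm_u he]
  have e6 : t n * ‖∑ i ∈ A, (inner 𝕜 (ff 𝕜 e i) z : 𝕜)‖ * Real.sqrt (2 * n + 1)
      = ‖∑ i ∈ A, (inner 𝕜 (ff 𝕜 e i) z : 𝕜)‖ := by
    rw [mul_right_comm, e4, one_mul]
  rw [e6]
  linarith

end Pool.Agent.W701.Perm
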