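import Mathlib
import Pool.Agent.W701.PermB

set_option autoImplicit false

namespace Pool.Agent.W701.Perm

open Filter Topology Finset

variable {𝕜 : Type*} [RCLike 𝕜] {H : Type*} [NormedAddCommGroup H] [InnerProductSpace 𝕜 H]

theorem sum_perm_block {M : Type*} [AddCommMonoid M] (p : Equiv.Perm ℕ) (C : Finset ℕ)
    (hp : ∀ i, i ∈ C ↔ p i ∈ C) (g : ℕ → M) : ∑ i ∈ C, g (p i) = ∑ i ∈ C, g i := by
  refine Finset.sum_bij (fun i _ => p i) (fun i hi => (hp i).1 hi)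
    (fun i _ j _ h => p.injective h) (fun j hj => ⟨p.symm j, ?_, by simp⟩) (fun i _ => rfl)
  rw [hp]; simpa using hj

theorem tendsto_sqrt : Tendsto Nat.sqrt atTop atTop := by
  rw [tendsto_atTop]
  intro b
  filter_upwards [eventually_ge_atTop (b ^ 2)] with a ha
  exact Nat.le_sqrt'.2 ha

theorem expansion (e : HilbertBasis ℕ 𝕜 H) (z : H) : ∃ σ : Equiv.Perm ℕ,
    Tendsto (fun m => ∑ i ∈ range m, (inner 𝕜 (ff 𝕜 e (σ i)) z : 𝕜) • xx 𝕜 e (σ i)) atTop
      (𝓝 z) := by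
  classical
  have he : Orthonormal 𝕜 e := e.orthonormal
  set c : ℕ → 𝕜 := fun i => inner 𝕜 (ff 𝕜 e i) z with hc
  have hgr := fun n => greedy c (n ^ 2) (2 * n + 1)
  choose p hp1 hp2 using hgr
  have hp1' : ∀ n i, i ∈ B n ↔ p n i ∈ B n := by
    intro n i; rw [B_eq]; exact hp1 n i
  have hsq : ∀ n i, Nat.sqrt i = n → Nat.sqrt (p n i) = n := by
    intro n i h
    rw [← mem_B] at h ⊢
    exact (hp1' n i).1 h
  have hsq' : ∀ n i, Nat.sqrt i = n → Nat.sqrt ((p n).symm i) = n := by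
    intro n i h
    rw [← mem_B] at h ⊢
    rw [hp1']; simpa using h
  let σ : Equiv.Perm ℕ :=
    { toFun := fun i => p (Nat.sqrt i) i
      invFun := fun i => (p (Nat.sqrt i)).symm i
      left_inv := fun i => by
        show (p (Nat.sqrt (p (Nat.sqrt i) i))).symm (p (Nat.sqrt i) i) = i
        rw [hsq _ i rfl]; simp
      right_inv := fun i => by
        show p (Nat.sqrt ((p (Nat.sqrt i)).symm i)) ((p (Nat.sqrt i)).symm i) = i
        rw [hsq' _ i rfl]; simp }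
  have hσ : ∀ n, ∀ i ∈ B n, σ i = p n i := by
    intro n i hi
    show p (Nat.sqrt i) i = p n i
    rw [(mem_B n i).1 hi]
  refine ⟨σ, ?_⟩
  -- full blocks
  have hfull : ∀ n, ∑ i ∈ range (n ^ 2), c (σ i) • xx 𝕜 e (σ i) =
      ∑ i ∈ range (n ^ 2), (inner 𝕜 (e i) z : 𝕜) • e i := by
    intro n
    induction n with
    | zero => simp
    | succ n ih =>
      have hle : n ^ 2 ≤ (n + 1) ^ 2 := Nat.pow_le_pow_left (Nat.le_succ n) 2
      rw [← Finset.sum_range_add_sum_Ico _ hle, ← Finset.sum_range_add_sum_Ico _ hle, ih]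
      congr 1
      have h1 : ∑ i ∈ B n, c (σ i) • xx 𝕜 e (σ i) = ∑ i ∈ B n, c (p n i) • xx 𝕜 e (p n i) :=
        Finset.sum_congr rfl (fun i hi => by rw [hσ n i hi])
      show ∑ i ∈ B n, c (σ i) • xx 𝕜 e (σ i) = ∑ i ∈ B n, (inner 𝕜 (e i) z : 𝕜) • e i
      rw [h1, sum_perm_block (p n) (B n) (hp1' n) (fun i => c i • xx 𝕜 e i)]
      exact block_sum z n
  have hP : Tendsto (fun n : ℕ => ∑ i ∈ range (n ^ 2), (inner 𝕜 (e i) z : 𝕜) • e i) atTop
      (𝓝 z) := by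
    have h1 := (e.hasSum_repr z).tendsto_sum_nat
    simp only [e.repr_apply_apply] at h1
    have h2 : Tendsto (fun n : ℕ => n ^ 2) atTop atTop := tendsto_pow_atTop (by norm_num)
    exact h1.comp h2
  have hy : Tendsto (fun n : ℕ => ‖yy 𝕜 e z n‖) atTop (𝓝 0) := by
    have h1 := (hP.comp (tendsto_add_atTop_nat 1)).sub hP
    have h2 : ∀ n : ℕ, yy 𝕜 e z n = ∑ i ∈ range ((n + 1) ^ 2), (inner 𝕜 (e i) z : 𝕜) • e i
        - ∑ i ∈ range (n ^ 2), (inner 𝕜 (e i) z : 𝕜) • e i := by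
      intro n
      have hle : n ^ 2 ≤ (n + 1) ^ 2 := Nat.pow_le_pow_left (Nat.le_succ n) 2
      rw [← Finset.sum_range_add_sum_Ico _ hle, add_sub_cancel_left]
      rfl
    have h3 := h1.norm
    simp only [sub_self, norm_zero] at h3
    refine h3.congr (fun n => ?_)
    rw [h2]
    rfl
  have hbound : ∀ m : ℕ, ‖∑ i ∈ range m, c (σ i) • xx 𝕜 e (σ i) - z‖ ≤
      ‖∑ i ∈ range ((Nat.sqrt m) ^ 2), (inner 𝕜 (e i) z : 𝕜) • e i - z‖ +
        5 * ‖yy 𝕜 e z (Nat.sqrt m)‖ := by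
    intro m
    set n := Nat.sqrt m with hn
    have h1 : n ^ 2 ≤ m := Nat.sqrt_le' m
    have h2 : m < (n + 1) ^ 2 := Nat.lt_succ_sqrt' m
    obtain ⟨k, hk⟩ := Nat.exists_eq_add_of_le h1
    have hk2 : k ≤ 2 * n + 1 := by
      have : (n + 1) ^ 2 = n ^ 2 + (2 * n + 1) := by ring
      omega
    rw [← Finset.sum_range_add_sum_Ico _ h1, hfull n]
    have h3 : ∑ i ∈ Finset.Ico (n ^ 2) m, c (σ i) • xx 𝕜 e (σ i)
        = ∑ j ∈ (Finset.Ico (n ^ 2) m).image (p n), c j • xx 𝕜 e j := by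
      rw [Finset.sum_image (fun i _ j _ h => (p n).injective h)]
      refine Finset.sum_congr rfl (fun i hi => ?_)
      have : i ∈ B n := by
        unfold B
        rw [Finset.mem_Ico] at hi ⊢
        omega
      rw [hσ n i this]
    have hA : (Finset.Ico (n ^ 2) m).image (p n) ⊆ B n := by
      intro j hj
      obtain ⟨i, hi, rfl⟩ := Finset.mem_image.1 hj
      rw [← hp1']
      unfold B
      rw [Finset.mem_Ico] at hi ⊢
      omega
    have h4 : ‖∑ j ∈ (Finset.Ico (n ^ 2) m).image (p n), c j • xx 𝕜 e j‖ ≤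
        5 * ‖yy 𝕜 e z n‖ := by
      apply part_bound he z n _ hA
      rw [Finset.sum_image (fun i _ j _ h => (p n).injective h)]
      have := hp2 n k hk2
      rw [← B_eq] at this
      rw [hk]
      exact this
    rw [h3, add_sub_right_comm]
    exact (norm_add_le _ _).trans (add_le_add le_rfl h4)
  rw [tendsto_iff_norm_sub_tendsto_zero]
  have hlim : Tendsto (fun m : ℕ => ‖∑ i ∈ range ((Nat.sqrt m) ^ 2), (inner 𝕜 (e i) z : 𝕜) • e i - z‖ +
        5 * ‖yy 𝕜 e z (Nat.sqrt m)‖) atTop (𝓝 0) := by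
    have h1 := (tendsto_iff_norm_sub_tendsto_zero.1 hP).add (hy.const_mul 5)
    simp only [mul_zero, add_zero] at h1
    exact h1.comp tendsto_sqrt
  exact squeeze_zero (fun _ => norm_nonneg _) hbound hlim

theorem inner_xx_sum (e : ℕ → H) (he : Orthonormal 𝕜 e) (σ : Equiv.Perm ℕ) (β : ℕ → 𝕜) (m : ℕ)
    (j : ℕ) (hj : j < m) :
    inner 𝕜 (ff 𝕜 e (σ j)) (∑ i ∈ range m, β i • xx 𝕜 e (σ i)) = β j := by
  rw [inner_sum, Finset.sum_eq_single j]
  · rw [inner_smul_right, biorth he, if_pos rfl, mul_one]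
  · intro i _ hij
    rw [inner_smul_right, biorth he, if_neg (fun h => hij (σ.injective h).symm), mul_zero]
  · intro h; exact absurd (Finset.mem_range.2 hj) h

theorem coef_unique (e : ℕ → H) (he : Orthonormal 𝕜 e) (σ : Equiv.Perm ℕ) (β : ℕ → 𝕜) (z : H)
    (h : Tendsto (fun m => ∑ i ∈ range m, β i • xx 𝕜 e (σ i)) atTop (𝓝 z)) (j : ℕ) :
    β j = inner 𝕜 (ff 𝕜 e (σ j)) z := by
  have h1 : Tendsto (fun m => (inner 𝕜 (ff 𝕜 e (σ j)) (∑ i ∈ range m, β i • xx 𝕜 e (σ i)) : 𝕜))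
      atTop (𝓝 (inner 𝕜 (ff 𝕜 e (σ j)) z)) :=
    (Continuous.inner continuous_const continuous_id).continuousAt.tendsto.comp h
  have h2 : Tendsto (fun m => (inner 𝕜 (ff 𝕜 e (σ j)) (∑ i ∈ range m, β i • xx 𝕜 e (σ i)) : 𝕜))
      atTop (𝓝 (β j)) := by
    refine tendsto_const_nhds.congr' ?_
    filter_upwards [eventually_gt_atTop j] with m hm
    exact (inner_xx_sum e he σ β m j hm).symm
  exact tendsto_nhds_unique h2 h1

end Pool.Agent.W701.Perm
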