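import Mathlib
import Pool.Agent.W701.PermC

set_option autoImplicit false

namespace Pool.Agent.W701.Perm

open Filter Topology Finset

variable {𝕜 : Type*} [RCLike 𝕜] {H : Type*} [NormedAddCommGroup H] [InnerProductSpace 𝕜 H]

theorem exists_half (τ : Equiv.Perm ℕ) (C : Finset ℕ) (n : ℕ) (hn : n ≤ C.card) :
    ∃ m : ℕ, ((range m).filter (fun i => τ i ∈ C)).card = n := by
  classical
  have hex : ∃ m, n ≤ ((range m).filter (fun i => τ i ∈ C)).card := by
    refine ⟨(C.image τ.symm).sup id + 1, hn.trans ?_⟩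
    rw [← Finset.card_image_of_injective C τ.symm.injective]
    apply Finset.card_le_card
    intro i hi
    obtain ⟨j, hj, rfl⟩ := Finset.mem_image.1 hi
    rw [Finset.mem_filter, Finset.mem_range]
    refine ⟨Nat.lt_succ_of_le ?_, by simpa using hj⟩
    exact Finset.le_sup (f := id) (Finset.mem_image_of_mem _ hj)
  refine ⟨Nat.find hex, ?_⟩
  have h1 := Nat.find_spec hex
  by_contra hne
  have h2 : n < ((range (Nat.find hex)).filter (fun i => τ i ∈ C)).card := by omega
  rcases Nat.eq_zero_or_pos (Nat.find hex) with h0 | hpos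
  · rw [h0] at h2; simp at h2
  · obtain ⟨k, hk⟩ : ∃ k, Nat.find hex = k + 1 := ⟨Nat.find hex - 1, by omega⟩
    have h3 := Nat.find_min hex (m := k) (by omega)
    rw [hk, Finset.range_add_one, Finset.filter_insert] at h2
    split_ifs at h2 with h4
    · rw [Finset.card_insert_of_notMem (by simp)] at h2
      omega
    · omega

theorem not_basis [CompleteSpace H] (e : HilbertBasis ℕ 𝕜 H) (τ : Equiv.Perm ℕ) :
    ¬ (∀ z : H, ∃ β : ℕ → 𝕜,
      Tendsto (fun m => ∑ i ∈ range m, β i • xx 𝕜 e (τ i)) atTop (𝓝 z)) := by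
  classical
  intro hb
  have he : Orthonormal 𝕜 e := e.orthonormal
  let S : ℕ → H →L[𝕜] H := fun m =>
    ∑ i ∈ range m, (innerSL 𝕜 (ff 𝕜 e (τ i))).smulRight (xx 𝕜 e (τ i))
  have hS : ∀ m z, S m z = ∑ i ∈ range m, (inner 𝕜 (ff 𝕜 e (τ i)) z : 𝕜) • xx 𝕜 e (τ i) := by
    intro m z
    simp only [S, _root_.sum_apply]
    rfl
  have hlim : ∀ z, Tendsto (fun m => S m z) atTop (𝓝 z) := by
    intro z
    obtain ⟨β, hβ⟩ := hb z
    refine hβ.congr (fun m => ?_)
    rw [hS]
    exact Finset.sum_congr rfl (fun i _ => by rw [coef_unique e he τ β z hβ i])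
  obtain ⟨K, hK⟩ := banach_steinhaus (g := S) (fun z => by
    obtain ⟨C, hC⟩ := (hlim z).norm.bddAbove_range
    exact ⟨C, fun m => hC ⟨m, rfl⟩⟩)
  have hK0 : 0 ≤ K := (norm_nonneg _).trans (hK 0)
  obtain ⟨n, hn⟩ := exists_nat_gt ((2 * K + 1) ^ 2)
  have hnpos : (0 : ℝ) < n := lt_of_le_of_lt (by positivity) hn
  have hsqn : 2 * K + 1 < Real.sqrt n := by
    rw [Real.lt_sqrt (by positivity)]; exact hn
  obtain ⟨m, hm⟩ := exists_half τ (B n) n (by rw [card_B]; omega)
  set A : Finset ℕ := ((range m).filter (fun i => τ i ∈ B n)).image τ with hA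
  have hAcard : A.card = n := by
    rw [hA, Finset.card_image_of_injective _ τ.injective, hm]
  have hAB : A ⊆ B n := by
    intro j hj
    obtain ⟨i, hi, rfl⟩ := Finset.mem_image.1 hj
    exact (Finset.mem_filter.1 hi).2
  have hcard : n ≤ (B n \ A).card := by
    rw [Finset.card_sdiff_of_subset hAB, card_B, hAcard]; omega
  obtain ⟨A', hA', hA'card⟩ := Finset.exists_subset_card_eq hcard
  have hdisj : ∀ j ∈ A', j ∉ A := fun j hj => (Finset.mem_sdiff.1 (hA' hj)).2
  have hA'B : A' ⊆ B n := fun j hj => (Finset.mem_sdiff.1 (hA' hj)).1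
  let c : ℕ → 𝕜 := fun j => if j ∈ A then 1 else if j ∈ A' then -1 else 0
  set z : H := ∑ j ∈ B n, c j • (e j : H) with hz
  have hcB : ∀ j, j ∉ B n → c j = 0 := by
    intro j hj
    simp only [c]
    rw [if_neg (fun h => hj (hAB h)), if_neg (fun h => hj (hA'B h))]
  have hez : ∀ j, inner 𝕜 (e j) z = c j := by
    intro j
    rw [hz, inner_sum]
    have : ∀ i ∈ B n, inner 𝕜 (e j) (c i • e i) = if j = i then c i else 0 := by
      intro i _
      rw [inner_smul_right, orthonormal_iff_ite.1 he j i]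
      split_ifs <;> simp
    rw [Finset.sum_congr rfl this, Finset.sum_ite_eq]
    split_ifs with h
    · rfl
    · exact (hcB j h).symm
  have hsumc : ∑ j ∈ B n, c j = 0 := by
    have h1 : ∑ j ∈ B n, c j = ∑ j ∈ B n, ((if j ∈ A then (1 : 𝕜) else 0) -
        (if j ∈ A' then (1 : 𝕜) else 0)) := by
      refine Finset.sum_congr rfl (fun j _ => ?_)
      simp only [c]
      by_cases h1 : j ∈ A
      · rw [if_pos h1, if_pos h1, if_neg (fun h => hdisj j h h1)]; simp
      · by_cases h2 : j ∈ A'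
        · rw [if_neg h1, if_pos h2, if_neg h1, if_pos h2]; simp
        · rw [if_neg h1, if_neg h2, if_neg h1, if_neg h2]; simp
    rw [h1, Finset.sum_sub_distrib, Finset.sum_ite_mem, Finset.sum_ite_mem,
      Finset.inter_eq_right.2 hAB, Finset.inter_eq_right.2 hA'B]
    simp [hAcard, hA'card]
  have huz : ∀ k, inner 𝕜 (u e k) z = (0 : 𝕜) := by
    intro k
    rw [inner_u_z]
    rcases eq_or_ne k n with h | h
    · subst h
      rw [← hsumc]
      exact Finset.sum_congr rfl (fun j _ => hez j)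
    · refine Finset.sum_eq_zero (fun j hj => ?_)
      rw [hez]
      apply hcB
      intro h'
      rw [mem_B] at hj h'
      exact h (hj.symm.trans h')
  have hcoef : ∀ j, inner 𝕜 (ff 𝕜 e j) z = c j := by
    intro j
    rw [coef_eq, huz, mul_zero, sub_zero, hez]
  have hSz : S m z = ∑ j ∈ A, (1 : 𝕜) • xx 𝕜 e j := by
    rw [hS]
    have h1 : ∀ i ∈ range m, (inner 𝕜 (ff 𝕜 e (τ i)) z : 𝕜) • xx 𝕜 e (τ i)
        = if τ i ∈ B n then (1 : 𝕜) • xx 𝕜 e (τ i) else 0 := by
      intro i hi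
      rw [hcoef]
      by_cases h : τ i ∈ B n
      · rw [if_pos h]
        have : τ i ∈ A := Finset.mem_image_of_mem _ (Finset.mem_filter.2 ⟨hi, h⟩)
        simp only [c]
        rw [if_pos this]
      · rw [if_neg h, hcB _ h, zero_smul]
    rw [Finset.sum_congr rfl h1, ← Finset.sum_filter, hA,
      Finset.sum_image (fun i _ j _ h => τ.injective h)]
  have hSnorm : (n : ℝ) - Real.sqrt n ≤ ‖S m z‖ := by
    rw [hSz, sum_comb A n hAB]
    have e1 : ‖∑ i ∈ A, (1 : 𝕜) • (e i : H)‖ = Real.sqrt n := by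
      rw [norm_comb he]
      simp [hAcard]
    have e2 : ‖(((t n : ℝ) : 𝕜) * ∑ i ∈ A, (1 : 𝕜)) • u e n‖ = n := by
      have e4 : t n * Real.sqrt (2 * n + 1) = 1 := by
        unfold t
        exact inv_mul_cancel₀ (Real.sqrt_pos.2 (by positivity)).ne'
      have e5 : 0 ≤ t n := by unfold t; positivity
      rw [norm_smul, norm_mul, RCLike.norm_ofReal, abs_of_nonneg e5, norm_u he]
      simp only [Finset.sum_const, hAcard, nsmul_eq_mul, mul_one, RCLike.norm_natCast]
      calc t n * n * Real.sqrt (2 * n + 1) = (t n * Real.sqrt (2 * n + 1)) * n := by ring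
        _ = n := by rw [e4, one_mul]
    have e3 : ‖(((t n : ℝ) : 𝕜) * ∑ i ∈ A, (1 : 𝕜)) • u e n‖ ≤
        ‖∑ i ∈ A, (1 : 𝕜) • (e i : H) + (((t n : ℝ) : 𝕜) * ∑ i ∈ A, (1 : 𝕜)) • u e n‖ +
        ‖∑ i ∈ A, (1 : 𝕜) • (e i : H)‖ := by
      have := norm_sub_le (∑ i ∈ A, (1 : 𝕜) • (e i : H) +
        (((t n : ℝ) : 𝕜) * ∑ i ∈ A, (1 : 𝕜)) • u e n) (∑ i ∈ A, (1 : 𝕜) • (e i : H))
      rwa [add_sub_cancel_left] at this
    rw [e1, e2] at e3
    linarith
  have hznorm : ‖z‖ ≤ 2 * Real.sqrt n := by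
    rw [hz, norm_comb he]
    have h1 : ∑ j ∈ B n, ‖c j‖ ^ 2 = 2 * n := by
      have : ∀ j ∈ B n, ‖c j‖ ^ 2 = (if j ∈ A then (1 : ℝ) else 0) +
          (if j ∈ A' then (1 : ℝ) else 0) := by
        intro j _
        simp only [c]
        by_cases h1 : j ∈ A
        · rw [if_pos h1, if_pos h1, if_neg (fun h => hdisj j h h1)]; simp
        · by_cases h2 : j ∈ A'
          · rw [if_neg h1, if_pos h2, if_neg h1, if_pos h2]; simp
          · rw [if_neg h1, if_neg h2, if_neg h1, if_neg h2]; simp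
      rw [Finset.sum_congr rfl this, Finset.sum_add_distrib, Finset.sum_ite_mem,
        Finset.sum_ite_mem, Finset.inter_eq_right.2 hAB, Finset.inter_eq_right.2 hA'B]
      simp only [Finset.sum_const, hAcard, hA'card, nsmul_eq_mul, mul_one]
      ring
    rw [h1]
    rw [show (2 : ℝ) * Real.sqrt n = Real.sqrt (4 * n) by
      rw [Real.sqrt_mul (by norm_num), show (4 : ℝ) = 2 ^ 2 by norm_num,
        Real.sqrt_sq (by norm_num)]]
    apply Real.sqrt_le_sqrt
    linarith
  have hfinal : (n : ℝ) - Real.sqrt n ≤ K * (2 * Real.sqrt n) :=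
    hSnorm.trans (((S m).le_opNorm z).trans (mul_le_mul (hK m) hznorm (norm_nonneg _) hK0))
  have hsq : Real.sqrt n * Real.sqrt n = n := Real.mul_self_sqrt hnpos.le
  have hsp : 0 < Real.sqrt n := Real.sqrt_pos.2 hnpos
  nlinarith

end Pool.Agent.W701.Perm
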