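import Mathlib

set_option autoImplicit false

namespace Pool.Agent.W701

open Filter Topology Metric

variable {𝕜 : Type*} [RCLike 𝕜] {E : Type*} [NormedAddCommGroup E] [NormedSpace 𝕜 E]

/-- the weak star compactness, in the form of a cluster functional of a bounded sequence -/
theorem exists_cluster (f : ℕ → (E →L[𝕜] 𝕜)) (D : ℝ) (hf : ∀ n, ‖f n‖ ≤ D)
    (l : Filter ℕ) [NeBot l] :
    ∃ g : E →L[𝕜] 𝕜, ‖g‖ ≤ D ∧ ∀ (s : Finset E) (ε : ℝ), 0 < ε →
      ∃ᶠ n in l, ∀ z ∈ s, ‖f n z - g z‖ < ε := by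
  classical
  have hK := WeakDual.isCompact_closedBall (𝕜 := 𝕜) (E := E) (0 : StrongDual 𝕜 E) D
  have hmem : ∀ n, StrongDual.toWeakDual (f n) ∈
      (WeakDual.toStrongDual ⁻¹' Metric.closedBall (0 : StrongDual 𝕜 E) D) := by
    intro n
    simp only [Set.mem_preimage, Metric.mem_closedBall, dist_zero_right]
    exact hf n
  obtain ⟨g, hg, hgc⟩ := hK.exists_mapClusterPt (f := l)
    (u := fun n => StrongDual.toWeakDual (f n))
    (by
      rw [Filter.le_principal_iff]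
      exact Filter.mem_map.2 (Filter.univ_mem' hmem))
  refine ⟨WeakDual.toStrongDual g, ?_, ?_⟩
  · simpa using hg
  · intro s ε hε
    have hopen : {h : WeakDual 𝕜 E | ∀ z ∈ s, ‖h z - g z‖ < ε} ∈ 𝓝 g := by
      have : {h : WeakDual 𝕜 E | ∀ z ∈ s, ‖h z - g z‖ < ε}
          = ⋂ z ∈ s, {h : WeakDual 𝕜 E | ‖h z - g z‖ < ε} := by
        ext h; simp
      rw [this]
      refine (Filter.biInter_finset_mem s).2 (fun z _ => ?_)
      have hc : Continuous (fun h : WeakDual 𝕜 E => ‖h z - g z‖) := by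
        have := WeakDual.eval_continuous (𝕜 := 𝕜) z
        exact (this.sub continuous_const).norm
      exact (isOpen_lt hc continuous_const).mem_nhds (by simpa using hε)
    exact hgc.frequently hopen

/-- Veech's argument (Sobczyk): a bounded sequence of functionals that tends to zero pointwise on a
closed subspace can be corrected by functionals vanishing on the subspace so as to tend to zero
pointwise everywhere. -/
theorem veech [TopologicalSpace.SeparableSpace E] (Y : Set E) (f : ℕ → (E →L[𝕜] 𝕜)) (D : ℝ)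
    (hf : ∀ n, ‖f n‖ ≤ D) (hY : ∀ y ∈ Y, Tendsto (fun n => f n y) atTop (𝓝 0)) :
    ∃ g : ℕ → (E →L[𝕜] 𝕜), (∀ n, ‖g n‖ ≤ D) ∧ (∀ n, ∀ y ∈ Y, g n y = 0) ∧
      ∀ z, Tendsto (fun n => f n z - g n z) atTop (𝓝 0) := by
  classical
  have hD : 0 ≤ D := (norm_nonneg _).trans (hf 0)
  obtain ⟨d, hd⟩ := TopologicalSpace.exists_dense_seq E
  -- step 1
  have key : ∀ m : ℕ, ∃ N : ℕ, ∀ n ≥ N, ∃ h : E →L[𝕜] 𝕜, ‖h‖ ≤ D ∧ (∀ y ∈ Y, h y = 0) ∧
      ∀ i < m, ‖f n (d i) - h (d i)‖ < 1 / ((m : ℝ) + 1) := by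
    intro m
    by_contra hcon
    push Not at hcon
    -- frequently
    let P : ℕ → Prop := fun n => ∀ h : E →L[𝕜] 𝕜, ‖h‖ ≤ D → (∀ y ∈ Y, h y = 0) →
      ∃ i < m, 1 / ((m : ℝ) + 1) ≤ ‖f n (d i) - h (d i)‖
    have hfr : ∃ᶠ n in atTop, P n := by
      rw [Filter.frequently_atTop]
      intro N
      obtain ⟨n, hn, h⟩ := hcon N
      exact ⟨n, hn, h⟩
    have : NeBot (atTop ⊓ 𝓟 {n | P n}) := by
      rw [← Filter.frequently_mem_iff_neBot]
      exact hfr
    obtain ⟨g, hg, hgc⟩ := exists_cluster f D hf (atTop ⊓ 𝓟 {n | P n})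
    have hgY : ∀ y ∈ Y, g y = 0 := by
      intro y hy
      by_contra hne
      have hpos : 0 < ‖g y‖ := norm_pos_iff.2 hne
      have h1 := hgc {y} (‖g y‖ / 2) (by positivity)
      have h2 : ∀ᶠ n in (atTop ⊓ 𝓟 {n | P n}), ‖f n y‖ < ‖g y‖ / 2 := by
        have h3 : ∀ᶠ n in atTop, ‖f n y‖ < ‖g y‖ / 2 := by
          have := (hY y hy).norm
          rw [norm_zero] at this
          exact this.eventually (gt_mem_nhds (by positivity))
        exact h3.filter_mono inf_le_left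
      obtain ⟨n, h4, h5⟩ := (h1.and_eventually h2).exists
      have h6 := h4 y (by simp)
      have : ‖g y‖ ≤ ‖f n y - g y‖ + ‖f n y‖ := by
        have : g y = -(f n y - g y) + f n y := by ring
        calc ‖g y‖ = ‖-(f n y - g y) + f n y‖ := by rw [← this]
          _ ≤ ‖-(f n y - g y)‖ + ‖f n y‖ := norm_add_le _ _
          _ = _ := by rw [norm_neg]
      linarith
    have h1 := hgc ((Finset.range m).image d) (1 / ((m : ℝ) + 1)) (by positivity)
    have h2 : ∀ᶠ n in (atTop ⊓ 𝓟 {n | P n}), P n :=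
      Filter.mem_inf_of_right (Filter.mem_principal_self _)
    obtain ⟨n, h4, h5⟩ := (h1.and_eventually h2).exists
    obtain ⟨i, hi, h6⟩ := h5 g hg hgY
    have h7 := h4 (d i) (Finset.mem_image.2 ⟨i, by simpa using hi, rfl⟩)
    linarith
  choose N hN using key
  -- monotone thresholds
  let M : ℕ → ℕ := fun m => (∑ j ∈ Finset.range (m + 1), N j) + m
  have hMN : ∀ m, N m ≤ M m := by
    intro m
    have : N m ≤ ∑ j ∈ Finset.range (m + 1), N j :=
      Finset.single_le_sum (f := N) (fun _ _ => Nat.zero_le _) (by simp)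
    exact this.trans (Nat.le_add_right _ _)
  have hMm : ∀ m, m ≤ M m := fun m => Nat.le_add_left _ _
  -- for each n the best level
  have hchoose : ∀ n : ℕ, ∃ h : E →L[𝕜] 𝕜, ‖h‖ ≤ D ∧ (∀ y ∈ Y, h y = 0) ∧
      ∀ m, M m ≤ n → ∃ m' ≥ m, ∀ i < m', ‖f n (d i) - h (d i)‖ < 1 / ((m' : ℝ) + 1) := by
    intro n
    by_cases h0 : ∃ m, M m ≤ n
    · have hb : ∀ m, M m ≤ n → m ≤ n := fun m h => (hMm m).trans h
      let m' := Nat.findGreatest (fun m => M m ≤ n) n
      have hm' : M m' ≤ n := by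
        obtain ⟨m, hm⟩ := h0
        exact Nat.findGreatest_spec (P := fun m => M m ≤ n) (hb m hm) hm
      obtain ⟨h, h1, h2, h3⟩ := hN m' n ((hMN m').trans hm')
      refine ⟨h, h1, h2, fun m hm => ⟨m', ?_, h3⟩⟩
      exact Nat.le_findGreatest (hb m hm) hm
    · refine ⟨0, by simpa using hD, by simp, fun m hm => absurd ⟨m, hm⟩ h0⟩
  choose g hg1 hg2 hg3 using hchoose
  refine ⟨g, hg1, hg2, ?_⟩
  -- convergence on the dense sequence
  have hdense : ∀ i, Tendsto (fun n => f n (d i) - g n (d i)) atTop (𝓝 0) := by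
    intro i
    rw [Metric.tendsto_atTop]
    intro ε hε
    obtain ⟨m, hm⟩ := exists_nat_gt (1 / ε)
    refine ⟨M (max m (i + 1)), fun n hn => ?_⟩
    obtain ⟨m', hm', h⟩ := hg3 n _ hn
    have him : i < m' := lt_of_lt_of_le (Nat.lt_succ_self i) ((le_max_right _ _).trans hm')
    have h1 := h i him
    rw [dist_zero_right]
    refine h1.trans ?_
    have hm'' : (m : ℝ) ≤ m' := by exact_mod_cast (le_max_left _ _).trans hm'
    rw [div_lt_iff₀ (by positivity)]
    have : 1 / ε < (m' : ℝ) + 1 := by linarith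
    rw [div_lt_iff₀ hε] at this
    linarith
  intro z
  rw [Metric.tendsto_atTop]
  intro ε hε
  have hpos : 0 < ε / (2 * (2 * D + 1)) := by positivity
  obtain ⟨i, hw⟩ := hd.exists_dist_lt z hpos
  obtain ⟨N0, hN0⟩ := Metric.tendsto_atTop.1 (hdense i) (ε / 2) (by positivity)
  refine ⟨N0, fun n hn => ?_⟩
  have h1 := hN0 n hn
  rw [dist_zero_right] at h1 ⊢
  have h2 : f n z - g n z = (f n (d i) - g n (d i)) + (f n - g n) (z - d i) := by
    simp only [ContinuousLinearMap.sub_apply, map_sub]; ring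
  have h3 : ‖(f n - g n) (z - d i)‖ ≤ 2 * D * (ε / (2 * (2 * D + 1))) := by
    calc ‖(f n - g n) (z - d i)‖ ≤ ‖f n - g n‖ * ‖z - d i‖ := ContinuousLinearMap.le_opNorm _ _
      _ ≤ (2 * D) * (ε / (2 * (2 * D + 1))) := by
        apply mul_le_mul _ _ (norm_nonneg _) (by positivity)
        · calc ‖f n - g n‖ ≤ ‖f n‖ + ‖g n‖ := norm_sub_le _ _
            _ ≤ 2 * D := by linarith [hf n, hg1 n]
        · rw [← dist_eq_norm]; exact hw.le
  have h4 : 2 * D * (ε / (2 * (2 * D + 1))) ≤ ε / 2 := by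
    rw [mul_div_assoc', div_le_div_iff₀ (by positivity) (by positivity)]
    nlinarith
  calc ‖f n z - g n z‖ = ‖(f n (d i) - g n (d i)) + (f n - g n) (z - d i)‖ := by rw [h2]
    _ ≤ ‖f n (d i) - g n (d i)‖ + ‖(f n - g n) (z - d i)‖ := norm_add_le _ _
    _ < ε := by linarith

end Pool.Agent.W701
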