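import Mathlib
import Pool.Agent.W701.MinA

set_option autoImplicit false

namespace Pool.Agent.W701

open Filter Topology Metric

variable {𝕜 : Type*} [RCLike 𝕜] {E : Type*} [NormedAddCommGroup E] [NormedSpace 𝕜 E]

open Classical in
/-- The state of the construction. -/
structure St (x : ℕ → E) (B K : ℝ) (T : Finset (E × (E →L[𝕜] 𝕜))) (F : ℕ → (E →L[𝕜] 𝕜))
    (N : ℕ) (b : ℝ) : Prop where
  one : ∀ p ∈ T, p.2 p.1 = 1
  zero : ∀ p ∈ T, ∀ q ∈ T, p ≠ q → p.2 q.1 = 0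
  hx : ∀ p ∈ T, ∀ n, p.2 (x n) = 0
  Fv : ∀ p ∈ T, ∀ n, F n p.1 = 0
  Fx1 : ∀ n, F n (x n) = 1
  Fx0 : ∀ n m, n ≠ m → F n (x m) = 0
  Ft : ∀ z, Tendsto (fun n => F n z) atTop (𝓝 0)
  bd : ∀ n, ‖F n‖ ≤ B + K + b
  bd' : ∀ n ≥ N, ‖F n‖ ≤ B + b

open Classical in
theorem St.ins {x : ℕ → E} {B K : ℝ} {T : Finset (E × (E →L[𝕜] 𝕜))}
    {F : ℕ → (E →L[𝕜] 𝕜)} {N : ℕ} {b : ℝ} (hS : St x B K T F N b) (u : E) (us : E →L[𝕜] 𝕜)
    (h1 : us u = 1) (h2 : ∀ n, us (x n) = 0) (h3 : ∀ q ∈ T, us q.1 = 0) (h4 : ∀ q ∈ T, q.2 u = 0)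
    (h5 : ∀ n < N, F n u = 0) (N' : ℕ) (b' : ℝ) (hN : N ≤ N') (hb : b ≤ b')
    (h6 : ∀ n ≥ N, ‖F n u‖ * ‖us‖ ≤ K) (h7 : ∀ n ≥ N', ‖F n u‖ * ‖us‖ ≤ b' - b) :
    St x B K (insert (u, us) T) (fun n => F n - (F n u) • us) N' b' := by
  have hnorm : ∀ n, ‖F n - (F n u) • us‖ ≤ ‖F n‖ + ‖F n u‖ * ‖us‖ := by
    intro n
    calc ‖F n - (F n u) • us‖ ≤ ‖F n‖ + ‖(F n u) • us‖ := norm_sub_le _ _
      _ = _ := by rw [norm_smul]
  constructor
  · intro p hp
    rcases Finset.mem_insert.1 hp with rfl | hp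
    · exact h1
    · exact hS.one p hp
  · intro p hp q hq hpq
    rcases Finset.mem_insert.1 hp with rfl | hp
    · rcases Finset.mem_insert.1 hq with rfl | hq
      · exact absurd rfl hpq
      · exact h3 q hq
    · rcases Finset.mem_insert.1 hq with rfl | hq
      · exact h4 p hp
      · exact hS.zero p hp q hq hpq
  · intro p hp n
    rcases Finset.mem_insert.1 hp with rfl | hp
    · exact h2 n
    · exact hS.hx p hp n
  · intro p hp n
    rcases Finset.mem_insert.1 hp with rfl | hp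
    · simp [h1]
    · simp [hS.Fv p hp n, h3 p hp]
  · intro n
    simp [hS.Fx1 n, h2 n]
  · intro n m hnm
    simp [hS.Fx0 n m hnm, h2 m]
  · intro z
    have := (hS.Ft z).sub ((hS.Ft u).mul_const (us z))
    simpa using this
  · intro n
    rcases lt_or_ge n N with h | h
    · have e0 := hS.bd n
      have e1 := hnorm n
      rw [h5 n h, norm_zero, zero_mul] at e1
      show ‖F n - (F n u) • us‖ ≤ _
      rw [h5 n h]
      linarith
    · have e1 := hnorm n
      have e2 := hS.bd' n h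
      have e3 := h6 n h
      show ‖F n - (F n u) • us‖ ≤ _
      linarith
  · intro n hn
    have e1 := hnorm n
    have e2 := hS.bd' n (hN.trans hn)
    have e3 := h7 n hn
    show ‖F n - (F n u) • us‖ ≤ _
    linarith

open Classical in
/-- reduction of a vector against the system -/
theorem St.reduce {x : ℕ → E} {B K : ℝ} {T : Finset (E × (E →L[𝕜] 𝕜))}
    {F : ℕ → (E →L[𝕜] 𝕜)} {N : ℕ} {b : ℝ} (hS : St x B K T F N b) (z : E) (M : ℕ) :
    ∃ u : E, (∀ q ∈ T, q.2 u = 0) ∧ (∀ n < M, F n u = 0) ∧ (∀ n ≥ M, F n u = F n z) ∧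
      z - u ∈ Submodule.span 𝕜 (Set.range x ∪ Prod.fst '' (T : Set (E × (E →L[𝕜] 𝕜)))) ∧
      ‖z - u‖ ≤ ∑ n ∈ Finset.range M, ‖F n z‖ * ‖x n‖ + ∑ q ∈ T, ‖q.2 z‖ * ‖q.1‖ := by
  refine ⟨z - (∑ n ∈ Finset.range M, (F n z) • x n + ∑ q ∈ T, (q.2 z) • q.1), ?_, ?_, ?_, ?_, ?_⟩
  · intro q hq
    have h1 : q.2 (∑ n ∈ Finset.range M, (F n z) • x n) = 0 := by
      rw [map_sum]
      refine Finset.sum_eq_zero (fun n _ => ?_)
      simp [hS.hx q hq n]
    have h2 : q.2 (∑ q ∈ T, (q.2 z) • q.1) = q.2 z := by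
      rw [map_sum, Finset.sum_eq_single q]
      · simp [hS.one q hq]
      · intro p hp hpq
        simp [hS.zero q hq p hp (Ne.symm hpq)]
      · intro h; exact absurd hq h
    rw [map_sub, map_add, h1, h2]; simp
  · intro n hn
    have h1 : F n (∑ n ∈ Finset.range M, (F n z) • x n) = F n z := by
      rw [map_sum, Finset.sum_eq_single n]
      · simp [hS.Fx1 n]
      · intro m _ hm
        simp [hS.Fx0 n m (Ne.symm hm)]
      · intro h; exact absurd (Finset.mem_range.2 hn) h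
    have h2 : F n (∑ q ∈ T, (q.2 z) • q.1) = 0 := by
      rw [map_sum]
      refine Finset.sum_eq_zero (fun q hq => ?_)
      simp [hS.Fv q hq n]
    rw [map_sub, map_add, h1, h2]; simp
  · intro n hn
    have h1 : F n (∑ n ∈ Finset.range M, (F n z) • x n) = 0 := by
      rw [map_sum]
      refine Finset.sum_eq_zero (fun m hm => ?_)
      have : m < M := Finset.mem_range.1 hm
      simp [hS.Fx0 n m (by omega)]
    have h2 : F n (∑ q ∈ T, (q.2 z) • q.1) = 0 := by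
      rw [map_sum]
      refine Finset.sum_eq_zero (fun q hq => ?_)
      simp [hS.Fv q hq n]
    rw [map_sub, map_add, h1, h2]; simp
  · rw [sub_sub_cancel]
    refine Submodule.add_mem _ (Submodule.sum_mem _ (fun n _ => ?_))
      (Submodule.sum_mem _ (fun q hq => ?_))
    · exact Submodule.smul_mem _ _ (Submodule.subset_span (Or.inl ⟨n, rfl⟩))
    · exact Submodule.smul_mem _ _ (Submodule.subset_span (Or.inr ⟨q, hq, rfl⟩))
  · rw [sub_sub_cancel]
    refine (norm_add_le _ _).trans (add_le_add ?_ ?_)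
    · refine (norm_sum_le _ _).trans (le_of_eq (Finset.sum_congr rfl (fun n _ => norm_smul _ _)))
    · refine (norm_sum_le _ _).trans (le_of_eq (Finset.sum_congr rfl (fun n _ => norm_smul _ _)))

theorem sep_functional (V : Submodule 𝕜 E) (z : E) (δ : ℝ) (hδ : 0 < δ)
    (h : δ ≤ ‖(Submodule.Quotient.mk z : E ⧸ V)‖) :
    ∃ us : E →L[𝕜] 𝕜, us z = 1 ∧ (∀ v ∈ V, us v = 0) ∧ ‖us‖ ≤ 1 / δ := by
  obtain ⟨g, hg, hgz⟩ := exists_dual_vector 𝕜 (Submodule.Quotient.mk z : E ⧸ V)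
    (ne_of_gt (lt_of_lt_of_le hδ h))
  have hpos : 0 < ‖(Submodule.Quotient.mk z : E ⧸ V)‖ := lt_of_lt_of_le hδ h
  let π : E →L[𝕜] (E ⧸ V) := V.mkQ.mkContinuous 1 (fun x => by
    rw [one_mul]; exact Submodule.Quotient.norm_mk_le V x)
  have hπ : ‖π‖ ≤ 1 := LinearMap.mkContinuous_norm_le _ zero_le_one _
  refine ⟨((‖(Submodule.Quotient.mk z : E ⧸ V)‖ : 𝕜)⁻¹) • (g.comp π), ?_, ?_, ?_⟩
  · have : (g.comp π) z = (‖(Submodule.Quotient.mk z : E ⧸ V)‖ : 𝕜) := hgz
    simp only [ContinuousLinearMap.smul_apply, this, smul_eq_mul]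
    refine inv_mul_cancel₀ ?_
    exact_mod_cast hpos.ne'
  · intro v hv
    have : π v = 0 := (Submodule.Quotient.mk_eq_zero V).2 hv
    simp [this]
  · rw [norm_smul, norm_inv, RCLike.norm_ofReal, abs_of_pos hpos, one_div]
    calc ‖(Submodule.Quotient.mk z : E ⧸ V)‖⁻¹ * ‖g.comp π‖
        ≤ δ⁻¹ * (‖g‖ * ‖π‖) := by
          apply mul_le_mul _ (ContinuousLinearMap.opNorm_comp_le _ _) (norm_nonneg _)
            (by positivity)
          exact inv_anti₀ hδ h
      _ ≤ δ⁻¹ * 1 := by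
          apply mul_le_mul_of_nonneg_left _ (by positivity)
          rw [hg, one_mul]; exact hπ
      _ = δ⁻¹ := mul_one _

theorem not_fd_quotient (x : ℕ → E) (S : Set E) (hS : S.Finite)
    (h : ¬ FiniteDimensional 𝕜 (E ⧸ (Submodule.span 𝕜 (Set.range x)).topologicalClosure)) :
    ¬ FiniteDimensional 𝕜 (E ⧸ (Submodule.span 𝕜 (Set.range x ∪ S)).topologicalClosure) := by
  intro hfd
  apply h
  set Y := (Submodule.span 𝕜 (Set.range x)).topologicalClosure with hY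
  set V := (Submodule.span 𝕜 (Set.range x ∪ S)).topologicalClosure with hV
  have : FiniteDimensional 𝕜 (Submodule.span 𝕜 S) := FiniteDimensional.span_of_finite 𝕜 hS
  have hcl : IsClosed ((Y ⊔ Submodule.span 𝕜 S : Submodule 𝕜 E) : Set E) :=
    Submodule.isClosed_sup_finiteDimensional _ _ (Submodule.isClosed_topologicalClosure _)
  have hle : V ≤ Y ⊔ Submodule.span 𝕜 S := by
    apply Submodule.topologicalClosure_minimal _ _ hcl
    rw [Submodule.span_union]
    exact sup_le_sup_right (Submodule.le_topologicalClosure _) _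
  have h1 : FiniteDimensional 𝕜 (E ⧸ (Y ⊔ Submodule.span 𝕜 S)) := by
    refine Module.Finite.of_surjective (Submodule.factor hle) ?_
    exact Submodule.factor_surjective hle
  have h2 : FiniteDimensional 𝕜 ((E ⧸ Y) ⧸ (Submodule.span 𝕜 S).map Y.mkQ) :=
    Module.Finite.equiv (Submodule.quotientQuotientEquivQuotientSup Y (Submodule.span 𝕜 S)).symm
  have h3 : FiniteDimensional 𝕜 ((Submodule.span 𝕜 S).map Y.mkQ) := inferInstance
  exact Module.Finite.of_submodule_quotient ((Submodule.span 𝕜 S).map Y.mkQ)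

end Pool.Agent.W701
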