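import Mathlib
import Pool.Agent.W701.MinB

set_option autoImplicit false

namespace Pool.Agent.W701

open Filter Topology Metric

variable {𝕜 : Type*} [RCLike 𝕜] {E : Type*} [NormedAddCommGroup E] [NormedSpace 𝕜 E]

theorem two_close {α : Type*} [PseudoMetricSpace α] [ProperSpace α] (φ : ℕ → α)
    (hb : Bornology.IsBounded (Set.range φ)) (ε : ℝ) (hε : 0 < ε) :
    ∃ k l : ℕ, k ≠ l ∧ dist (φ k) (φ l) < ε := by
  obtain ⟨a, _, ψ, hψ, hlim⟩ := tendsto_subseq_of_bounded hb (x := φ) (fun n => ⟨n, rfl⟩)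
  obtain ⟨N, hN⟩ := Metric.tendsto_atTop.1 hlim (ε / 2) (by positivity)
  refine ⟨ψ N, ψ (N + 1), (hψ (Nat.lt_succ_self N)).ne, ?_⟩
  have h1 := hN N le_rfl
  have h2 := hN (N + 1) (Nat.le_succ N)
  calc dist (φ (ψ N)) (φ (ψ (N + 1))) ≤ dist (φ (ψ N)) a + dist (φ (ψ (N + 1))) a :=
        dist_triangle_right _ _ _
    _ < ε := by
      simp only [Function.comp] at h1 h2
      linarith

open Classical in
theorem good_vector {x : ℕ → E} {B K : ℝ} {T : Finset (E × (E →L[𝕜] 𝕜))}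
    {F : ℕ → (E →L[𝕜] 𝕜)} {N : ℕ} {b : ℝ} (hS : St x B K T F N b)
    (hinf : ¬ FiniteDimensional 𝕜 (E ⧸ (Submodule.span 𝕜 (Set.range x)).topologicalClosure)) :
    ∃ (u : E) (us : E →L[𝕜] 𝕜), ‖u‖ ≤ 9 ∧ ‖us‖ ≤ 1 ∧ us u = 1 ∧ (∀ n, us (x n) = 0) ∧
      (∀ q ∈ T, us q.1 = 0) ∧ (∀ q ∈ T, q.2 u = 0) ∧ (∀ n < N, F n u = 0) := by
  set S : Set E := Prod.fst '' (T : Set (E × (E →L[𝕜] 𝕜))) with hSdef
  have hSfin : S.Finite := T.finite_toSet.image _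
  have hV := not_fd_quotient x S hSfin hinf
  set V := (Submodule.span 𝕜 (Set.range x ∪ S)).topologicalClosure with hVdef
  have hVc : IsClosed (V : Set E) := Submodule.isClosed_topologicalClosure _
  obtain ⟨f, hf1, hf2⟩ := exists_seq_norm_le_one_le_norm_sub' (𝕜 := 𝕜) (E := E ⧸ V)
    (c := (2 : 𝕜)) (by simp) (R := 3) (by norm_num) hV
  have hlift : ∀ k, ∃ w : E, (Submodule.Quotient.mk w : E ⧸ V) = f k ∧ ‖w‖ < 4 := by
    intro k
    obtain ⟨w, hw, hw'⟩ := Submodule.Quotient.norm_mk_lt (f k) (ε := 1) one_pos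
    refine ⟨w, hw, ?_⟩
    have := hf1 k
    linarith
  choose w hw1 hw2 using hlift
  let φ : ℕ → ((Fin N → 𝕜) × (T → 𝕜)) := fun k =>
    (fun n => F n (w k), fun q => q.1.2 (w k))
  have hφb : Bornology.IsBounded (Set.range φ) := by
    rw [isBounded_iff_forall_norm_le]
    let C : ℝ := ∑ n ∈ Finset.range N, ‖F n‖ * 4 + ∑ q ∈ T, ‖q.2‖ * 4
    have hC0 : ∀ q ∈ T, 0 ≤ ‖q.2‖ * 4 := fun q _ => by positivity
    have hC1 : ∀ n ∈ Finset.range N, 0 ≤ ‖F n‖ * 4 := fun q _ => by positivity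
    refine ⟨C, ?_⟩
    rintro _ ⟨k, rfl⟩
    have hCpos : 0 ≤ C := add_nonneg (Finset.sum_nonneg hC1) (Finset.sum_nonneg hC0)
    rw [Prod.norm_def]
    refine max_le ?_ ?_
    · rw [pi_norm_le_iff_of_nonneg hCpos]
      intro n
      have h1 : ‖F n (w k)‖ ≤ ‖F n‖ * 4 :=
        ((F n).le_opNorm _).trans (mul_le_mul_of_nonneg_left (hw2 k).le (norm_nonneg _))
      have h2 : ‖F n‖ * 4 ≤ ∑ n ∈ Finset.range N, ‖F n‖ * 4 :=
        Finset.single_le_sum (f := fun n => ‖F n‖ * 4) hC1 (Finset.mem_range.2 n.2)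
      have h3 := Finset.sum_nonneg hC0
      show ‖F n (w k)‖ ≤ C
      simp only [C]
      linarith
    · rw [pi_norm_le_iff_of_nonneg hCpos]
      intro q
      have h1 : ‖q.1.2 (w k)‖ ≤ ‖q.1.2‖ * 4 :=
        ((q.1.2).le_opNorm _).trans (mul_le_mul_of_nonneg_left (hw2 k).le (norm_nonneg _))
      have h2 : ‖q.1.2‖ * 4 ≤ ∑ q ∈ T, ‖q.2‖ * 4 :=
        Finset.single_le_sum (f := fun q : E × (E →L[𝕜] 𝕜) => ‖q.2‖ * 4) hC0 q.2
      have h3 := Finset.sum_nonneg hC1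
      show ‖q.1.2 (w k)‖ ≤ C
      simp only [C]
      linarith
  set A : ℝ := ∑ n ∈ Finset.range N, ‖x n‖ + ∑ q ∈ T, ‖q.1‖ with hA
  have hA0 : 0 ≤ A := add_nonneg (Finset.sum_nonneg (fun _ _ => norm_nonneg _))
    (Finset.sum_nonneg (fun _ _ => norm_nonneg _))
  obtain ⟨k, l, hkl, hd⟩ := two_close φ hφb (1 / (A + 1)) (by positivity)
  have hd' : ‖φ k - φ l‖ < 1 / (A + 1) := by rw [← dist_eq_norm]; exact hd
  set ε := 1 / (A + 1) with hε
  have hεpos : 0 < ε := by positivity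
  have hd1 : ∀ n < N, ‖F n (w k - w l)‖ ≤ ε := by
    intro n hn
    have h1 : ‖(φ k - φ l).1 ⟨n, hn⟩‖ ≤ ‖φ k - φ l‖ :=
      (norm_le_pi_norm (φ k - φ l).1 ⟨n, hn⟩).trans (norm_fst_le _)
    have h2 : (φ k - φ l).1 ⟨n, hn⟩ = F n (w k - w l) := by
      simp [φ]
    rw [h2] at h1
    linarith
  have hd2 : ∀ q ∈ T, ‖q.2 (w k - w l)‖ ≤ ε := by
    intro q hq
    have h1 : ‖(φ k - φ l).2 ⟨q, hq⟩‖ ≤ ‖φ k - φ l‖ :=
      (norm_le_pi_norm (φ k - φ l).2 ⟨q, hq⟩).trans (norm_snd_le _)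
    have h2 : (φ k - φ l).2 ⟨q, hq⟩ = q.2 (w k - w l) := by
      simp [φ]
    rw [h2] at h1
    linarith
  obtain ⟨u, hu1, hu2, hu3, hu4, hu5⟩ := hS.reduce (w k - w l) N
  have hun : ‖w k - w l - u‖ ≤ 1 := by
    refine hu5.trans ?_
    calc ∑ n ∈ Finset.range N, ‖F n (w k - w l)‖ * ‖x n‖ + ∑ q ∈ T, ‖q.2 (w k - w l)‖ * ‖q.1‖
        ≤ ∑ n ∈ Finset.range N, ε * ‖x n‖ + ∑ q ∈ T, ε * ‖q.1‖ := by
          refine add_le_add (Finset.sum_le_sum fun n hn => ?_) (Finset.sum_le_sum fun q hq => ?_)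
          · exact mul_le_mul_of_nonneg_right (hd1 n (Finset.mem_range.1 hn)) (norm_nonneg _)
          · exact mul_le_mul_of_nonneg_right (hd2 q hq) (norm_nonneg _)
      _ = ε * A := by rw [← Finset.mul_sum, ← Finset.mul_sum, ← mul_add]
      _ ≤ 1 := by
          rw [hε, div_mul_eq_mul_div, div_le_one (by positivity)]
          linarith
  have hmk : (Submodule.Quotient.mk u : E ⧸ V) = f k - f l := by
    have h1 : (Submodule.Quotient.mk (w k - w l) : E ⧸ V) = f k - f l := by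
      rw [Submodule.Quotient.mk_sub, hw1, hw1]
    rw [← h1]
    symm
    rw [Submodule.Quotient.eq]
    exact Submodule.le_topologicalClosure _ hu4
  have hge : (1 : ℝ) ≤ ‖(Submodule.Quotient.mk u : E ⧸ V)‖ := by
    rw [hmk]; exact hf2 hkl
  obtain ⟨us, hus1, hus2, hus3⟩ := sep_functional V u 1 one_pos hge
  refine ⟨u, us, ?_, by simpa using hus3, hus1, ?_, ?_, hu1, hu2⟩
  · have h1 : ‖u‖ ≤ ‖w k - w l‖ + ‖w k - w l - u‖ := by
      have : u = (w k - w l) - (w k - w l - u) := by abel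
      calc ‖u‖ = ‖(w k - w l) - (w k - w l - u)‖ := by rw [← this]
        _ ≤ _ := norm_sub_le _ _
    have h2 : ‖w k - w l‖ ≤ ‖w k‖ + ‖w l‖ := norm_sub_le _ _
    have h3 := hw2 k
    have h4 := hw2 l
    linarith
  · intro n
    exact hus2 _ (Submodule.le_topologicalClosure _ (Submodule.subset_span (Or.inl ⟨n, rfl⟩)))
  · intro q hq
    exact hus2 _ (Submodule.le_topologicalClosure _ (Submodule.subset_span (Or.inr ⟨q, hq, rfl⟩)))

open Classical in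
/-- adding one good pair -/
theorem St.addGood {x : ℕ → E} {B : ℝ} (hB : 0 ≤ B) {T : Finset (E × (E →L[𝕜] 𝕜))}
    {F : ℕ → (E →L[𝕜] 𝕜)} {N : ℕ} {b b' : ℝ} (hS : St x B (9 * (B + 1)) T F N b)
    (hinf : ¬ FiniteDimensional 𝕜 (E ⧸ (Submodule.span 𝕜 (Set.range x)).topologicalClosure))
    (hb : b < b') (hb1 : b ≤ 1) :
    ∃ (u : E) (us : E →L[𝕜] 𝕜) (F' : ℕ → (E →L[𝕜] 𝕜)) (N' : ℕ), ‖u‖ ≤ 9 ∧ ‖us‖ ≤ 1 ∧
      (u, us) ∉ T ∧ St x B (9 * (B + 1)) (insert (u, us) T) F' N' b' := by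
  obtain ⟨u, us, h1, h2, h3, h4, h5, h6, h7⟩ := good_vector hS hinf
  have hlim := (hS.Ft u).norm
  rw [norm_zero] at hlim
  obtain ⟨N1, hN1⟩ := (Filter.eventually_atTop.1
    (hlim.eventually (gt_mem_nhds (show (0 : ℝ) < b' - b by linarith))))
  refine ⟨u, us, _, max N N1, h1, h2, ?_, hS.ins u us h3 h4 h5 h6 h7 (max N N1) b'
    (le_max_left _ _) hb.le ?_ ?_⟩
  · intro hmem
    have e1 := h5 _ hmem
    simp only at e1
    rw [h3] at e1
    exact one_ne_zero e1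
  · intro n hn
    have e1 : ‖F n u‖ ≤ (B + b) * 9 := ((F n).le_opNorm u).trans
      (mul_le_mul (hS.bd' n hn) h1 (norm_nonneg _) ((norm_nonneg _).trans (hS.bd' n hn)))
    have e2 : ‖F n u‖ * ‖us‖ ≤ ‖F n u‖ * 1 := mul_le_mul_of_nonneg_left h2 (norm_nonneg _)
    nlinarith
  · intro n hn
    have e1 := hN1 n ((le_max_right _ _).trans hn)
    have e2 : ‖F n u‖ * ‖us‖ ≤ ‖F n u‖ * 1 := mul_le_mul_of_nonneg_left h2 (norm_nonneg _)
    linarith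

end Pool.Agent.W701
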