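import Mathlib
import Pool.Agent.W701.MinC

set_option autoImplicit false

namespace Pool.Agent.W701

open Filter Topology Metric

variable {𝕜 : Type*} [RCLike 𝕜] {E : Type*} [NormedAddCommGroup E] [NormedSpace 𝕜 E]

theorem St.mono {x : ℕ → E} {B K : ℝ} {T : Finset (E × (E →L[𝕜] 𝕜))}
    {F : ℕ → (E →L[𝕜] 𝕜)} {N : ℕ} {b b' : ℝ} (hS : St x B K T F N b) (hb : b ≤ b') :
    St x B K T F N b' where
  one := hS.one
  zero := hS.zero
  hx := hS.hx
  Fv := hS.Fv
  Fx1 := hS.Fx1
  Fx0 := hS.Fx0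
  Ft := hS.Ft
  bd := fun n => (hS.bd n).trans (by linarith)
  bd' := fun n hn => (hS.bd' n hn).trans (by linarith)

/-- the constant `1/√2` as a scalar -/
noncomputable def c2 (𝕜 : Type*) [RCLike 𝕜] : 𝕜 := (((Real.sqrt 2)⁻¹ : ℝ) : 𝕜)

theorem c2_sq : c2 𝕜 * c2 𝕜 * 2 = 1 := by
  unfold c2
  have h : (Real.sqrt 2)⁻¹ * (Real.sqrt 2)⁻¹ * 2 = 1 := by
    have h2 : Real.sqrt 2 * Real.sqrt 2 = 2 := Real.mul_self_sqrt (by norm_num)
    have h3 : Real.sqrt 2 ≠ 0 := by positivity
    field_simp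
    nlinarith
  exact_mod_cast congrArg (fun r : ℝ => (r : 𝕜)) h

theorem norm_c2 : ‖c2 𝕜‖ ≤ 1 / 1.4 := by
  unfold c2
  rw [RCLike.norm_ofReal, abs_of_pos (by positivity), one_div]
  apply inv_anti₀ (by norm_num)
  apply Real.le_sqrt_of_sq_le
  norm_num

open Classical in
theorem St.rot {x : ℕ → E} {B K : ℝ} {T : Finset (E × (E →L[𝕜] 𝕜))}
    {F : ℕ → (E →L[𝕜] 𝕜)} {N : ℕ} {b : ℝ} {u w : E} {us ws : E →L[𝕜] 𝕜}
    (hu : (u, us) ∉ T) (hw : (w, ws) ∉ insert (u, us) T)
    (hS : St x B K (insert (w, ws) (insert (u, us) T)) F N b) :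
    (c2 𝕜 • (u - w), c2 𝕜 • (us - ws)) ∉ T ∧
    (c2 𝕜 • (u + w), c2 𝕜 • (us + ws)) ∉
      insert (c2 𝕜 • (u - w), c2 𝕜 • (us - ws)) T ∧
    St x B K (insert (c2 𝕜 • (u + w), c2 𝕜 • (us + ws))
      (insert (c2 𝕜 • (u - w), c2 𝕜 • (us - ws)) T)) F N b := by
  have mw : (w, ws) ∈ insert (w, ws) (insert (u, us) T) := Finset.mem_insert_self _ _
  have mu : (u, us) ∈ insert (w, ws) (insert (u, us) T) :=
    Finset.mem_insert_of_mem (Finset.mem_insert_self _ _)
  have mT : ∀ q ∈ T, q ∈ insert (w, ws) (insert (u, us) T) := fun q hq =>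
    Finset.mem_insert_of_mem (Finset.mem_insert_of_mem hq)
  have hne : (u, us) ≠ (w, ws) := by
    intro h; exact hw (h ▸ Finset.mem_insert_self _ _)
  have hTu : ∀ q ∈ T, q ≠ (u, us) := fun q hq h => hu (h ▸ hq)
  have hTw : ∀ q ∈ T, q ≠ (w, ws) := fun q hq h => hw (Finset.mem_insert_of_mem (h ▸ hq))
  have a1 : us u = 1 := hS.one _ mu
  have a2 : ws w = 1 := hS.one _ mw
  have a3 : us w = 0 := hS.zero _ mu _ mw hne
  have a4 : ws u = 0 := hS.zero _ mw _ mu hne.symm
  have a5 : ∀ q ∈ T, q.2 u = 0 := fun q hq => hS.zero _ (mT q hq) _ mu (hTu q hq)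
  have a6 : ∀ q ∈ T, q.2 w = 0 := fun q hq => hS.zero _ (mT q hq) _ mw (hTw q hq)
  have a7 : ∀ q ∈ T, us q.1 = 0 := fun q hq => hS.zero _ mu _ (mT q hq) (hTu q hq).symm
  have a8 : ∀ q ∈ T, ws q.1 = 0 := fun q hq => hS.zero _ mw _ (mT q hq) (hTw q hq).symm
  have hc := c2_sq (𝕜 := 𝕜)
  have v1 : (c2 𝕜 • (us + ws)) (c2 𝕜 • (u + w)) = 1 := by
    simp only [smul_apply, add_apply, map_smul, map_add, a1, a2, a3, a4, smul_eq_mul]
    linear_combination hc
  have v2 : (c2 𝕜 • (us - ws)) (c2 𝕜 • (u - w)) = 1 := by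
    simp only [smul_apply, sub_apply, map_smul, map_sub, a1, a2, a3, a4, smul_eq_mul]
    linear_combination hc
  have v3 : (c2 𝕜 • (us + ws)) (c2 𝕜 • (u - w)) = 0 := by
    simp only [smul_apply, add_apply, map_smul, map_sub, a1, a2, a3, a4, smul_eq_mul]
    ring
  have v4 : (c2 𝕜 • (us - ws)) (c2 𝕜 • (u + w)) = 0 := by
    simp only [smul_apply, sub_apply, map_smul, map_add, a1, a2, a3, a4, smul_eq_mul]
    ring
  have v5 : ∀ q ∈ T, q.2 (c2 𝕜 • (u + w)) = 0 := fun q hq => by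
    simp [a5 q hq, a6 q hq]
  have v6 : ∀ q ∈ T, q.2 (c2 𝕜 • (u - w)) = 0 := fun q hq => by
    simp [a5 q hq, a6 q hq]
  have v7 : ∀ q ∈ T, (c2 𝕜 • (us + ws)) q.1 = 0 := fun q hq => by
    simp [a7 q hq, a8 q hq]
  have v8 : ∀ q ∈ T, (c2 𝕜 • (us - ws)) q.1 = 0 := fun q hq => by
    simp [a7 q hq, a8 q hq]
  have n2 : (c2 𝕜 • (u - w), c2 𝕜 • (us - ws)) ∉ T := by
    intro h
    have := v6 _ h
    rw [v2] at this
    exact one_ne_zero this
  have n1 : (c2 𝕜 • (u + w), c2 𝕜 • (us + ws)) ∉ T := by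
    intro h
    have := v5 _ h
    rw [v1] at this
    exact one_ne_zero this
  refine ⟨n2, ?_, ?_⟩
  · intro h
    rcases Finset.mem_insert.1 h with h | h
    · have e1 : c2 𝕜 • (u + w) = c2 𝕜 • (u - w) := congrArg Prod.fst h
      have e2 := v3
      rw [← e1, v1] at e2
      exact one_ne_zero e2
    · exact n1 h
  · constructor
    · intro p hp
      rcases Finset.mem_insert.1 hp with rfl | hp
      · exact v1
      · rcases Finset.mem_insert.1 hp with rfl | hp
        · exact v2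
        · exact hS.one p (mT p hp)
    · intro p hp q hq hpq
      rcases Finset.mem_insert.1 hp with rfl | hp
      · rcases Finset.mem_insert.1 hq with rfl | hq
        · exact absurd rfl hpq
        · rcases Finset.mem_insert.1 hq with rfl | hq
          · exact v3
          · exact v7 q hq
      · rcases Finset.mem_insert.1 hp with rfl | hp
        · rcases Finset.mem_insert.1 hq with rfl | hq
          · exact v4
          · rcases Finset.mem_insert.1 hq with rfl | hq
            · exact absurd rfl hpq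
            · exact v8 q hq
        · rcases Finset.mem_insert.1 hq with rfl | hq
          · exact v5 p hp
          · rcases Finset.mem_insert.1 hq with rfl | hq
            · exact v6 p hp
            · exact hS.zero p (mT p hp) q (mT q hq) hpq
    · intro p hp n
      rcases Finset.mem_insert.1 hp with rfl | hp
      · have e1 := hS.hx _ mu n
        have e2 := hS.hx _ mw n
        simp only at e1 e2
        simp [e1, e2]
      · rcases Finset.mem_insert.1 hp with rfl | hp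
        · have e1 := hS.hx _ mu n
          have e2 := hS.hx _ mw n
          simp only at e1 e2
          simp [e1, e2]
        · exact hS.hx p (mT p hp) n
    · intro p hp n
      rcases Finset.mem_insert.1 hp with rfl | hp
      · have e1 := hS.Fv _ mu n
        have e2 := hS.Fv _ mw n
        simp only at e1 e2
        simp [e1, e2]
      · rcases Finset.mem_insert.1 hp with rfl | hp
        · have e1 := hS.Fv _ mu n
          have e2 := hS.Fv _ mw n
          simp only at e1 e2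
          simp [e1, e2]
        · exact hS.Fv p (mT p hp) n
    · exact hS.Fx1
    · exact hS.Fx0
    · exact hS.Ft
    · exact hS.bd
    · exact hS.bd'

/-- thresholds -/
noncomputable def thr (L : ℕ) : ℝ := 23 + 7 * (1.4 : ℝ) ^ L

theorem half_bound {V : Type*} [NormedAddCommGroup V] [NormedSpace 𝕜 V] (u w : V) (L : ℕ)
    (hu : ‖u‖ ≤ thr (L + 1)) (hw : ‖w‖ ≤ 9) :
    ‖c2 𝕜 • (u + w)‖ ≤ thr L := by
  rw [norm_smul]
  have h1 : ‖u + w‖ ≤ thr (L + 1) + 9 := (norm_add_le _ _).trans (add_le_add hu hw)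
  have h2 := norm_c2 (𝕜 := 𝕜)
  have h3 : thr (L + 1) + 9 ≤ 1.4 * thr L := by
    unfold thr
    rw [pow_succ]
    nlinarith
  calc ‖c2 𝕜‖ * ‖u + w‖ ≤ (1 / 1.4) * (1.4 * thr L) :=
        mul_le_mul h2 (h1.trans h3) (norm_nonneg _) (by norm_num)
    _ = thr L := by ring

end Pool.Agent.W701
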