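import Mathlib
import Pool.Agent.W701.MinD

set_option autoImplicit false

namespace Pool.Agent.W701

open Filter Topology Metric

variable {𝕜 : Type*} [RCLike 𝕜] {E : Type*} [NormedAddCommGroup E] [NormedSpace 𝕜 E]

open Classical in
/-- absorbing a pair of large norms -/
theorem absorb {x : ℕ → E} {B : ℝ} (hB : 0 ≤ B)
    (hinf : ¬ FiniteDimensional 𝕜 (E ⧸ (Submodule.span 𝕜 (Set.range x)).topologicalClosure))
    (L : ℕ) : ∀ (T : Finset (E × (E →L[𝕜] 𝕜))) (F : ℕ → (E →L[𝕜] 𝕜)) (N : ℕ) (b b' : ℝ)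
      (u : E) (us : E →L[𝕜] 𝕜), (u, us) ∉ T →
      St x B (9 * (B + 1)) (insert (u, us) T) F N b → b < b' → b' ≤ 1 →
      ‖u‖ ≤ thr L → ‖us‖ ≤ thr L →
      ∃ (Q : Finset (E × (E →L[𝕜] 𝕜))) (F' : ℕ → (E →L[𝕜] 𝕜)) (N' : ℕ),
        St x B (9 * (B + 1)) (T ∪ Q) F' N' b' ∧ Disjoint T Q ∧
        (∀ p ∈ Q, ‖p.1‖ ≤ 30 ∧ ‖p.2‖ ≤ 30) ∧
        u ∈ Submodule.span 𝕜 (Prod.fst '' (Q : Set (E × (E →L[𝕜] 𝕜)))) := by
  induction L with
  | zero =>
    intro T F N b b' u us huT hS hb hb' hu hus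
    refine ⟨{(u, us)}, F, N, ?_, ?_, ?_, ?_⟩
    · have : T ∪ {(u, us)} = insert (u, us) T := by
        rw [Finset.union_comm]; rfl
      rw [this]
      exact hS.mono hb.le
    · simpa using huT
    · intro p hp
      rw [Finset.mem_singleton] at hp
      subst hp
      unfold thr at hu hus
      norm_num at hu hus
      exact ⟨hu, hus⟩
    · apply Submodule.subset_span
      simp
  | succ L ih =>
    intro T F N b b' u us huT hS hb hb' hu hus
    obtain ⟨w, ws, F1, N1, hw, hws, hwT, hS1⟩ := hS.addGood hB hinf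
      (b' := b + (b' - b) / 3) (by linarith) (by linarith)
    obtain ⟨n2, n1, hS2⟩ := St.rot huT hwT hS1
    have hw9 : ‖w‖ ≤ 9 := hw
    have hws9 : ‖ws‖ ≤ 9 := hws.trans (by norm_num)
    have e1 := half_bound (𝕜 := 𝕜) u w L hu hw9
    have e2 := half_bound (𝕜 := 𝕜) us ws L hus hws9
    have e3 : ‖c2 𝕜 • (u - w)‖ ≤ thr L := by
      rw [sub_eq_add_neg]
      exact half_bound u (-w) L hu (by rw [norm_neg]; exact hw9)
    have e4 : ‖c2 𝕜 • (us - ws)‖ ≤ thr L := by
      rw [sub_eq_add_neg]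
      exact half_bound us (-ws) L hus (by rw [norm_neg]; exact hws9)
    obtain ⟨Q1, F2, N2, hS3, hd1, hQ1, hsp1⟩ := ih _ F1 N1 _ (b + 2 * (b' - b) / 3) _ _ n1 hS2
      (by linarith) (by linarith) e1 e2
    have hswap : insert (c2 𝕜 • (u - w), c2 𝕜 • (us - ws)) T ∪ Q1
        = insert (c2 𝕜 • (u - w), c2 𝕜 • (us - ws)) (T ∪ Q1) := Finset.insert_union _ _ _
    rw [hswap] at hS3
    have hd1' := Finset.disjoint_left.1 hd1
    have n3 : (c2 𝕜 • (u - w), c2 𝕜 • (us - ws)) ∉ T ∪ Q1 := by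
      rw [Finset.mem_union]
      rintro (h | h)
      · exact n2 h
      · exact hd1' (Finset.mem_insert_self _ _) h
    obtain ⟨Q2, F3, N3, hS4, hd2, hQ2, hsp2⟩ := ih _ F2 N2 _ b' _ _ n3 hS3
      (by linarith) hb' e3 e4
    have hd2' := Finset.disjoint_left.1 hd2
    refine ⟨Q1 ∪ Q2, F3, N3, ?_, ?_, ?_, ?_⟩
    · rw [← Finset.union_assoc]; exact hS4
    · rw [Finset.disjoint_left]
      intro p hp hp'
      rcases Finset.mem_union.1 hp' with h | h
      · exact hd1' (Finset.mem_insert_of_mem hp) h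
      · exact hd2' (Finset.mem_union_left _ hp) h
    · intro p hp
      rcases Finset.mem_union.1 hp with h | h
      · exact hQ1 p h
      · exact hQ2 p h
    · have hs1 : Submodule.span 𝕜 (Prod.fst '' (Q1 : Set (E × (E →L[𝕜] 𝕜)))) ≤
          Submodule.span 𝕜 (Prod.fst '' ((Q1 ∪ Q2 : Finset (E × (E →L[𝕜] 𝕜))) :
            Set (E × (E →L[𝕜] 𝕜)))) := by
        apply Submodule.span_mono
        apply Set.image_mono
        rw [Finset.coe_union]
        exact Set.subset_union_left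
      have hs2 : Submodule.span 𝕜 (Prod.fst '' (Q2 : Set (E × (E →L[𝕜] 𝕜)))) ≤
          Submodule.span 𝕜 (Prod.fst '' ((Q1 ∪ Q2 : Finset (E × (E →L[𝕜] 𝕜))) :
            Set (E × (E →L[𝕜] 𝕜)))) := by
        apply Submodule.span_mono
        apply Set.image_mono
        rw [Finset.coe_union]
        exact Set.subset_union_right
      have hu' : u = c2 𝕜 • (c2 𝕜 • (u + w) + c2 𝕜 • (u - w)) := by
        rw [← smul_add, add_add_sub_cancel, ← two_smul 𝕜 u, smul_smul, smul_smul, c2_sq, one_smul]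
      rw [hu']
      exact Submodule.smul_mem _ _ (Submodule.add_mem _ (hs1 hsp1) (hs2 hsp2))

theorem thr_unbounded (r : ℝ) : ∃ L, r ≤ thr L := by
  obtain ⟨L, hL⟩ := pow_unbounded_of_one_lt r (show (1 : ℝ) < 1.4 by norm_num)
  refine ⟨L, ?_⟩
  unfold thr
  have : (0 : ℝ) < 1.4 ^ L := by positivity
  linarith

open Classical in
/-- one step: bring a given vector into the closed span -/
theorem step [CompleteSpace E] {x : ℕ → E} {B : ℝ} (hB : 0 ≤ B)
    (hinf : ¬ FiniteDimensional 𝕜 (E ⧸ (Submodule.span 𝕜 (Set.range x)).topologicalClosure))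
    {T : Finset (E × (E →L[𝕜] 𝕜))} {F : ℕ → (E →L[𝕜] 𝕜)} {N : ℕ} {b b' : ℝ}
    (hS : St x B (9 * (B + 1)) T F N b) (hb : b < b') (hb' : b' ≤ 1)
    (hT : ∀ p ∈ T, ‖p.1‖ ≤ 30 ∧ ‖p.2‖ ≤ 30) (z : E) :
    ∃ (T' : Finset (E × (E →L[𝕜] 𝕜))) (F' : ℕ → (E →L[𝕜] 𝕜)) (N' : ℕ),
      T ⊆ T' ∧ St x B (9 * (B + 1)) T' F' N' b' ∧ (∀ p ∈ T', ‖p.1‖ ≤ 30 ∧ ‖p.2‖ ≤ 30) ∧
      z ∈ (Submodule.span 𝕜 (Set.range x ∪
        Prod.fst '' (T' : Set (E × (E →L[𝕜] 𝕜))))).topologicalClosure := by
  set V := (Submodule.span 𝕜 (Set.range x ∪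
        Prod.fst '' (T : Set (E × (E →L[𝕜] 𝕜))))).topologicalClosure with hV
  have hVc : IsClosed (V : Set E) := Submodule.isClosed_topologicalClosure _
  by_cases hz : z ∈ V
  · exact ⟨T, F, N, subset_rfl, hS.mono hb.le, hT, hz⟩
  · have hpos : 0 < ‖(Submodule.Quotient.mk z : E ⧸ V)‖ := by
      rw [norm_pos_iff, Ne, Submodule.Quotient.mk_eq_zero]
      exact hz
    obtain ⟨us, hus1, hus2, hus3⟩ := sep_functional V z _ hpos le_rfl
    -- choose a threshold
    have hlim := (hS.Ft z).norm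
    rw [norm_zero] at hlim
    have hlim2 : Tendsto (fun n => ‖F n z‖ * ‖us‖) atTop (𝓝 0) := by
      simpa using hlim.mul_const ‖us‖
    set δ := min ((b' - b) / 2) (9 * (B + 1)) with hδ
    have hδpos : 0 < δ := lt_min (by linarith) (by linarith)
    obtain ⟨N1, hN1⟩ := (Filter.eventually_atTop.1 (hlim2.eventually (gt_mem_nhds hδpos)))
    obtain ⟨u, hu1, hu2, hu3, hu4, hu5⟩ := hS.reduce z (max N N1)
    have hzu : z - u ∈ V := Submodule.le_topologicalClosure _ hu4
    have husu : us u = 1 := by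
      have h1 := hus2 _ hzu
      rw [map_sub, sub_eq_zero] at h1
      rw [← h1, hus1]
    have husx : ∀ n, us (x n) = 0 := fun n =>
      hus2 _ (Submodule.le_topologicalClosure _ (Submodule.subset_span (Or.inl ⟨n, rfl⟩)))
    have husT : ∀ q ∈ T, us q.1 = 0 := fun q hq =>
      hus2 _ (Submodule.le_topologicalClosure _ (Submodule.subset_span (Or.inr ⟨q, hq, rfl⟩)))
    have huT : (u, us) ∉ T := by
      intro h
      have := hu1 _ h
      simp only at this
      rw [husu] at this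
      exact one_ne_zero this
    have hbound : ∀ n, ‖F n u‖ * ‖us‖ ≤ δ := by
      intro n
      rcases lt_or_ge n (max N N1) with h | h
      · rw [hu2 n h]; simpa using hδpos.le
      · rw [hu3 n h]; exact (hN1 n ((le_max_right _ _).trans h)).le
    have hS1 := hS.ins u us husu husx husT hu1
      (fun n hn => hu2 n (lt_of_lt_of_le hn (le_max_left _ _))) N (b + (b' - b) / 2) le_rfl
      (by linarith) (fun n _ => (hbound n).trans (min_le_right _ _))
      (fun n _ => (hbound n).trans (by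
        have := min_le_left ((b' - b) / 2) (9 * (B + 1))
        linarith))
    obtain ⟨L, hL⟩ := thr_unbounded (max ‖u‖ ‖us‖)
    obtain ⟨Q, F', N', hS2, hd, hQ, hsp⟩ := absorb hB hinf L T _ N _ b' u us huT hS1
      (by linarith) hb' ((le_max_left _ _).trans hL) ((le_max_right _ _).trans hL)
    refine ⟨T ∪ Q, F', N', Finset.subset_union_left, hS2, ?_, ?_⟩
    · intro p hp
      rcases Finset.mem_union.1 hp with h | h
      · exact hT p h
      · exact hQ p h
    · apply Submodule.le_topologicalClosure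
      have h1 : z = (z - u) + u := by abel
      rw [h1]
      refine Submodule.add_mem _ ?_ ?_
      · refine Submodule.span_mono ?_ hu4
        apply Set.union_subset_union_right
        apply Set.image_mono
        rw [Finset.coe_union]
        exact Set.subset_union_left
      · refine Submodule.span_mono ?_ hsp
        refine Set.Subset.trans ?_ Set.subset_union_right
        apply Set.image_mono
        rw [Finset.coe_union]
        exact Set.subset_union_right

end Pool.Agent.W701
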