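import Mathlib
import Pool.Agent.W701.MinE

set_option autoImplicit false

namespace Pool.Agent.W701

open Filter Topology Metric

variable {𝕜 : Type} [RCLike 𝕜] {E : Type} [NormedAddCommGroup E] [NormedSpace 𝕜 E]

theorem span_top_of_dense {d : ℕ → E} (hd : DenseRange d) (V : Submodule 𝕜 E)
    (hV : IsClosed (V : Set E)) (h : ∀ k, d k ∈ V) : V = ⊤ := by
  rw [Submodule.eq_top_iff']
  intro z
  have : z ∈ closure (Set.range d) := hd z
  exact closure_minimal (by rintro _ ⟨k, rfl⟩; exact h k) hV this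

/-- The desired conclusion, for one space. -/
def Concl (x : ℕ → E) : Prop :=
  ∃ (ι : Type) (_ : Countable ι) (y : ι → E) (C D : ℝ) (g : ℕ ⊕ ι → (E →L[𝕜] 𝕜)),
        (∀ i j : ℕ ⊕ ι, (i = j → g i (Sum.elim x y j) = 1) ∧
            (i ≠ j → g i (Sum.elim x y j) = 0)) ∧
        (∀ i : ℕ ⊕ ι, ‖Sum.elim x y i‖ ≤ C ∧ ‖g i‖ ≤ D) ∧
        (Submodule.span 𝕜 (Set.range (Sum.elim x y))).topologicalClosure = ⊤

theorem concl_fd {x : ℕ → E} (C D : ℝ) (f : ℕ → (E →L[𝕜] 𝕜))
    (h1 : ∀ n, f n (x n) = 1) (h0 : ∀ n m, n ≠ m → f n (x m) = 0)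
    (hxC : ∀ n, ‖x n‖ ≤ C) (hfD : ∀ n, ‖f n‖ ≤ D)
    (hfd : FiniteDimensional 𝕜 (E ⧸ (Submodule.span 𝕜 (Set.range x)).topologicalClosure)) :
    Concl (𝕜 := 𝕜) x := by
  classical
  set Y := (Submodule.span 𝕜 (Set.range x)).topologicalClosure with hY
  have hYc : IsClosed (Y : Set E) := Submodule.isClosed_topologicalClosure _
  have hC : 0 ≤ C := (norm_nonneg _).trans (hxC 0)
  have hD : 0 ≤ D := (norm_nonneg _).trans (hfD 0)
  let bs := Module.finBasis 𝕜 (E ⧸ Y)
  set r := Module.finrank 𝕜 (E ⧸ Y) with hr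
  have hsurj : ∀ i, ∃ y : E, (Submodule.Quotient.mk y : E ⧸ Y) = bs i := fun i =>
    Submodule.Quotient.mk_surjective Y (bs i)
  choose y hy using hsurj
  let π : E →L[𝕜] (E ⧸ Y) := Y.mkQ.mkContinuous 1 (fun x => by
    rw [one_mul]; exact Submodule.Quotient.norm_mk_le Y x)
  have hπ : ∀ z, π z = Submodule.Quotient.mk z := fun z => rfl
  let h : Fin r → (E →L[𝕜] 𝕜) := fun i => (LinearMap.toContinuousLinearMap (bs.coord i)).comp π
  have hh : ∀ i z, h i z = bs.coord i (Submodule.Quotient.mk z) := fun i z => rfl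
  have hhx : ∀ i n, h i (x n) = 0 := by
    intro i n
    have : (Submodule.Quotient.mk (x n) : E ⧸ Y) = 0 := by
      rw [Submodule.Quotient.mk_eq_zero]
      exact Submodule.le_topologicalClosure _ (Submodule.subset_span ⟨n, rfl⟩)
    rw [hh, this, map_zero]
  have hhy : ∀ i j, h i (y j) = if i = j then 1 else 0 := by
    intro i j
    rw [hh, hy, Module.Basis.coord_apply, Module.Basis.repr_self, Finsupp.single_apply]
    simp [eq_comm]
  let g : ℕ ⊕ Fin r → (E →L[𝕜] 𝕜) := Sum.elim (fun n => f n - ∑ i, (f n (y i)) • h i) h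
  refine ⟨Fin r, inferInstance, y, C + ∑ i, ‖y i‖, D + ∑ i, D * ‖y i‖ * ‖h i‖ + ∑ i, ‖h i‖,
    g, ?_, ?_, ?_⟩
  · rintro (n | i) (m | j)
    · constructor
      · intro e
        have e' : n = m := Sum.inl_injective e
        subst e'
        simp [g, h1, hhx, sum_apply]
      · intro e
        have e' : n ≠ m := fun e' => e (by rw [e'])
        simp [g, h0 n m e', hhx, sum_apply]
    · refine ⟨fun e => by simp at e, fun _ => ?_⟩
      simp [g, hhy, sum_apply]
    · refine ⟨fun e => by simp at e, fun _ => ?_⟩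
      simp [g, hhx]
    · constructor
      · intro e
        have e' : i = j := Sum.inr_injective e
        subst e'
        simp [g, hhy]
      · intro e
        have e' : i ≠ j := fun e' => e (by rw [e'])
        simp [g, hhy, e']
  · have p1 : ∀ i : Fin r, 0 ≤ ‖y i‖ := fun i => norm_nonneg _
    have p2 : ∀ i : Fin r, 0 ≤ D * ‖y i‖ * ‖h i‖ := fun i => by positivity
    have p3 : ∀ i : Fin r, 0 ≤ ‖h i‖ := fun i => norm_nonneg _
    have s1 := Finset.sum_nonneg (s := Finset.univ) (fun i _ => p1 i)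
    have s2 := Finset.sum_nonneg (s := Finset.univ) (fun i _ => p2 i)
    have s3 := Finset.sum_nonneg (s := Finset.univ) (fun i _ => p3 i)
    rintro (n | i)
    · constructor
      · have := hxC n
        simp only [Sum.elim_inl]
        linarith
      · have e1 : ‖g (Sum.inl n)‖ ≤ ‖f n‖ + ∑ i, ‖(f n (y i)) • h i‖ :=
          (norm_sub_le _ _).trans (add_le_add le_rfl (norm_sum_le _ _))
        have e2 : ∑ i, ‖(f n (y i)) • h i‖ ≤ ∑ i, D * ‖y i‖ * ‖h i‖ := by
          refine Finset.sum_le_sum (fun i _ => ?_)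
          rw [norm_smul]
          refine mul_le_mul_of_nonneg_right ?_ (norm_nonneg _)
          exact ((f n).le_opNorm _).trans (mul_le_mul_of_nonneg_right (hfD n) (norm_nonneg _))
        have e3 := hfD n
        linarith
    · constructor
      · have := Finset.single_le_sum (f := fun i => ‖y i‖) (fun i _ => p1 i) (Finset.mem_univ i)
        simp only [Sum.elim_inr]
        linarith
      · have := Finset.single_le_sum (f := fun i => ‖h i‖) (fun i _ => p3 i) (Finset.mem_univ i)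
        show ‖h i‖ ≤ _
        linarith
  · rw [Submodule.eq_top_iff']
    intro z
    have hYle : Y ≤ (Submodule.span 𝕜 (Set.range (Sum.elim x y))).topologicalClosure := by
      apply Submodule.topologicalClosure_mono
      apply Submodule.span_mono
      rw [Set.Sum.elim_range]
      exact Set.subset_union_left
    have hz : z = (z - ∑ i, h i z • y i) + ∑ i, h i z • y i := by abel
    rw [hz]
    refine Submodule.add_mem _ (hYle ?_) (Submodule.sum_mem _ (fun i _ => ?_))
    · rw [← Submodule.Quotient.mk_eq_zero]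
      have e1 : (Submodule.Quotient.mk (z - ∑ i, h i z • y i) : E ⧸ Y)
          = Submodule.Quotient.mk z - ∑ i, h i z • bs i := by
        show π (z - ∑ i, h i z • y i) = _
        rw [map_sub, map_sum]
        congr 1
        refine Finset.sum_congr rfl (fun i _ => ?_)
        rw [map_smul, hπ, hy]
      rw [e1, sub_eq_zero]
      have := bs.sum_repr (Submodule.Quotient.mk z)
      refine this.symm.trans (Finset.sum_congr rfl (fun i _ => ?_))
      rw [hh, Module.Basis.coord_apply]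
    · refine Submodule.smul_mem _ _ (Submodule.le_topologicalClosure _ (Submodule.subset_span ?_))
      exact ⟨Sum.inr i, rfl⟩

theorem concl_inf [CompleteSpace E] [TopologicalSpace.SeparableSpace E] {x : ℕ → E}
    (C D : ℝ) (f : ℕ → (E →L[𝕜] 𝕜))
    (h1 : ∀ n, f n (x n) = 1) (h0 : ∀ n m, n ≠ m → f n (x m) = 0)
    (hxC : ∀ n, ‖x n‖ ≤ C) (hfD : ∀ n, ‖f n‖ ≤ D)
    (hinf : ¬ FiniteDimensional 𝕜 (E ⧸ (Submodule.span 𝕜 (Set.range x)).topologicalClosure)) :
    Concl (𝕜 := 𝕜) x := by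
  classical
  have hC : 0 ≤ C := (norm_nonneg _).trans (hxC 0)
  have hD : 0 ≤ D := (norm_nonneg _).trans (hfD 0)
  -- the functionals tend to zero on the closed span
  set Y := (Submodule.span 𝕜 (Set.range x)).topologicalClosure with hYdef
  have hspan : ∀ z ∈ Submodule.span 𝕜 (Set.range x), Tendsto (fun n => f n z) atTop (𝓝 0) := by
    intro z hz
    induction hz using Submodule.span_induction with
    | mem z hz =>
      obtain ⟨m, rfl⟩ := hz
      refine tendsto_const_nhds.congr' ?_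
      filter_upwards [Filter.eventually_gt_atTop m] with n hn
      exact (h0 n m (by omega)).symm
    | zero => simp
    | add u v _ _ hu hv => simpa using hu.add hv
    | smul a u _ hu => simpa using hu.const_mul a
  have hYlim : ∀ z ∈ (Y : Set E), Tendsto (fun n => f n z) atTop (𝓝 0) := by
    intro z hz
    rw [Metric.tendsto_atTop]
    intro ε hε
    have hz' : z ∈ closure (Submodule.span 𝕜 (Set.range x) : Set E) := by
      rw [hYdef] at hz
      exact hz
    obtain ⟨w, hw, hzw⟩ := Metric.mem_closure_iff.1 hz' (ε / (2 * (D + 1))) (by positivity)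
    obtain ⟨N, hN⟩ := Metric.tendsto_atTop.1 (hspan w hw) (ε / 2) (by positivity)
    refine ⟨N, fun n hn => ?_⟩
    have e1 := hN n hn
    rw [dist_zero_right] at e1 ⊢
    have e2 : ‖f n (z - w)‖ ≤ D * (ε / (2 * (D + 1))) := by
      refine ((f n).le_opNorm _).trans (mul_le_mul (hfD n) ?_ (norm_nonneg _) hD)
      rw [← dist_eq_norm]; exact hzw.le
    have e3 : D * (ε / (2 * (D + 1))) ≤ ε / 2 := by
      rw [mul_div_assoc', div_le_div_iff₀ (by positivity) (by positivity)]
      nlinarith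
    have e4 : f n z = f n (z - w) + f n w := by rw [map_sub]; ring
    calc ‖f n z‖ = ‖f n (z - w) + f n w‖ := by rw [← e4]
      _ ≤ ‖f n (z - w)‖ + ‖f n w‖ := norm_add_le _ _
      _ < ε := by linarith
  obtain ⟨g0, hg1, hg2, hg3⟩ := veech (Y : Set E) f D hfD hYlim
  have hxY : ∀ n, x n ∈ (Y : Set E) := fun n =>
    Submodule.le_topologicalClosure _ (Submodule.subset_span ⟨n, rfl⟩)
  set B : ℝ := 2 * D with hBdef
  have hB : 0 ≤ B := by positivity
  have hS0 : St x B (9 * (B + 1)) (∅ : Finset (E × (E →L[𝕜] 𝕜))) (fun n => f n - g0 n) 0 0 := by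
    constructor
    · simp
    · simp
    · simp
    · simp
    · intro n
      simp [h1 n, hg2 n _ (hxY n)]
    · intro n m hnm
      simp [h0 n m hnm, hg2 n _ (hxY m)]
    · intro z
      simpa using hg3 z
    · intro n
      have : ‖f n - g0 n‖ ≤ ‖f n‖ + ‖g0 n‖ := norm_sub_le _ _
      have e1 := hfD n
      have e2 := hg1 n
      simp only [hBdef]
      linarith
    · intro n _
      have : ‖f n - g0 n‖ ≤ ‖f n‖ + ‖g0 n‖ := norm_sub_le _ _
      have e1 := hfD n
      have e2 := hg1 n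
      simp only [hBdef]
      linarith
  obtain ⟨d, hd⟩ := TopologicalSpace.exists_dense_seq E
  -- the levels
  let bb : ℕ → ℝ := fun k => 1 - (1 / 2 : ℝ) ^ k
  have hbb : ∀ k, bb k < bb (k + 1) := by
    intro k
    simp only [bb]
    have : (0 : ℝ) < (1 / 2 : ℝ) ^ k := by positivity
    rw [pow_succ]
    linarith
  have hbb1 : ∀ k, bb k ≤ 1 := by
    intro k
    simp only [bb]
    have : (0 : ℝ) < (1 / 2 : ℝ) ^ k := by positivity
    linarith
  let P : ℕ → (Finset (E × (E →L[𝕜] 𝕜)) × (ℕ → (E →L[𝕜] 𝕜)) × ℕ) → Prop := fun k s =>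
    St x B (9 * (B + 1)) s.1 s.2.1 s.2.2 (bb k) ∧ ∀ p ∈ s.1, ‖p.1‖ ≤ 30 ∧ ‖p.2‖ ≤ 30
  have hstep : ∀ (k : ℕ) (s : {s // P k s}), ∃ s' : {s' // P (k + 1) s'}, s.1.1 ⊆ s'.1.1 ∧
      d k ∈ (Submodule.span 𝕜 (Set.range x ∪
        Prod.fst '' (s'.1.1 : Set (E × (E →L[𝕜] 𝕜))))).topologicalClosure := by
    rintro k ⟨⟨T, F, N⟩, hs1, hs2⟩
    obtain ⟨T', F', N', a1, a2, a3, a4⟩ := step hB hinf hs1 (hbb k) (hbb1 _) hs2 (d k)
    exact ⟨⟨(T', F', N'), a2, a3⟩, a1, a4⟩
  choose nxt hnxt1 hnxt2 using hstep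
  let sq : (k : ℕ) → {s // P k s} := fun k => Nat.rec
    (⟨(∅, fun n => f n - g0 n, 0), by
      refine ⟨?_, by simp⟩
      have : bb 0 = 0 := by simp [bb]
      rw [this]
      exact hS0⟩ : {s // P 0 s}) (fun k s => nxt k s) k
  have hsq : ∀ k, sq (k + 1) = nxt k (sq k) := fun k => rfl
  let T : ℕ → Finset (E × (E →L[𝕜] 𝕜)) := fun k => (sq k).1.1
  have hTmono : Monotone T := monotone_nat_of_le_succ (fun k => by
    show (sq k).1.1 ⊆ (sq (k + 1)).1.1
    rw [hsq]
    exact hnxt1 k (sq k))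
  have hSt : ∀ k, St x B (9 * (B + 1)) (T k) (sq k).1.2.1 (sq k).1.2.2 (bb k) :=
    fun k => (sq k).2.1
  have hbd : ∀ k, ∀ p ∈ T k, ‖p.1‖ ≤ 30 ∧ ‖p.2‖ ≤ 30 := fun k => (sq k).2.2
  let F : ℕ → ℕ → (E →L[𝕜] 𝕜) := fun k => (sq k).1.2.1
  -- the limit set
  let U : Set (E × (E →L[𝕜] 𝕜)) := ⋃ k, (T k : Set (E × (E →L[𝕜] 𝕜)))
  have hU : U.Countable := Set.countable_iUnion (fun k => (T k).countable_toSet)
  -- the limit functionals
  have hG : ∀ n, ∃ G : E →L[𝕜] 𝕜, ‖G‖ ≤ B + 9 * (B + 1) + 1 ∧ G (x n) = 1 ∧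
      (∀ m, n ≠ m → G (x m) = 0) ∧ ∀ p ∈ U, G p.1 = 0 := by
    intro n
    obtain ⟨G, hG1, hG2⟩ := exists_cluster (fun k => F k n) (B + 9 * (B + 1) + 1)
      (fun k => ((hSt k).bd n).trans (by linarith [hbb1 k])) atTop
    have hev : ∀ (z : E) (c : 𝕜), (∀ᶠ k in atTop, F k n z = c) → G z = c := by
      intro z c hc
      by_contra hne
      have hpos : 0 < ‖c - G z‖ := norm_pos_iff.2 (sub_ne_zero.2 (Ne.symm hne))
      obtain ⟨k, hk1, hk2⟩ := ((hG2 {z} _ hpos).and_eventually hc).exists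
      have := hk1 z (by simp)
      rw [hk2] at this
      exact lt_irrefl _ this
    refine ⟨G, hG1, hev _ _ (Eventually.of_forall fun k => (hSt k).Fx1 n),
      fun m hm => hev _ _ (Eventually.of_forall fun k => (hSt k).Fx0 n m hm), ?_⟩
    intro p hp
    obtain ⟨k, hk⟩ := Set.mem_iUnion.1 hp
    refine hev _ _ ?_
    filter_upwards [Filter.eventually_ge_atTop k] with j hj
    exact (hSt j).Fv p (hTmono hj hk) n
  choose G hG1 hG2 hG3 hG4 using hG
  have hUpair : ∀ p ∈ U, ∀ q ∈ U, ∃ k, p ∈ T k ∧ q ∈ T k := by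
    intro p hp q hq
    obtain ⟨k, hk⟩ := Set.mem_iUnion.1 hp
    obtain ⟨l, hl⟩ := Set.mem_iUnion.1 hq
    exact ⟨max k l, hTmono (le_max_left _ _) hk, hTmono (le_max_right _ _) hl⟩
  refine ⟨U, hU.to_subtype, fun p => p.1.1, max C 30, max (B + 9 * (B + 1) + 1) 30,
    Sum.elim G (fun p => p.1.2), ?_, ?_, ?_⟩
  · rintro (n | p) (m | q)
    · constructor
      · intro e
        have e' : n = m := Sum.inl_injective e
        subst e'
        exact hG2 n
      · intro e
        have e' : n ≠ m := fun e' => e (by rw [e'])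
        exact hG3 n m e'
    · refine ⟨fun e => by simp at e, fun _ => ?_⟩
      exact hG4 n q.1 q.2
    · refine ⟨fun e => by simp at e, fun _ => ?_⟩
      obtain ⟨k, hk, _⟩ := hUpair p.1 p.2 p.1 p.2
      exact (hSt k).hx p.1 hk m
    · obtain ⟨k, hk, hk'⟩ := hUpair p.1 p.2 q.1 q.2
      constructor
      · intro e
        have e' : p = q := Sum.inr_injective e
        subst e'
        exact (hSt k).one p.1 hk
      · intro e
        have e' : p.1 ≠ q.1 := fun e' => e (by rw [Subtype.ext e'])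
        exact (hSt k).zero p.1 hk q.1 hk' e'
  · rintro (n | p)
    · exact ⟨(hxC n).trans (le_max_left _ _), (hG1 n).trans (le_max_left _ _)⟩
    · obtain ⟨k, hk, _⟩ := hUpair p.1 p.2 p.1 p.2
      exact ⟨(hbd k p.1 hk).1.trans (le_max_right _ _), (hbd k p.1 hk).2.trans (le_max_right _ _)⟩
  · refine span_top_of_dense hd _ (Submodule.isClosed_topologicalClosure _) (fun k => ?_)
    have e1 := hnxt2 k (sq k)
    refine Submodule.topologicalClosure_mono (Submodule.span_mono ?_) e1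
    rintro z (⟨n, rfl⟩ | ⟨p, hp, rfl⟩)
    · exact ⟨Sum.inl n, rfl⟩
    · exact ⟨Sum.inr ⟨p, Set.mem_iUnion.2 ⟨k + 1, hp⟩⟩, rfl⟩

theorem concl [CompleteSpace E] [TopologicalSpace.SeparableSpace E] {x : ℕ → E}
    (C D : ℝ) (f : ℕ → (E →L[𝕜] 𝕜))
    (h1 : ∀ n, f n (x n) = 1) (h0 : ∀ n m, n ≠ m → f n (x m) = 0)
    (hxC : ∀ n, ‖x n‖ ≤ C) (hfD : ∀ n, ‖f n‖ ≤ D) : Concl (𝕜 := 𝕜) x := by
  by_cases h : FiniteDimensional 𝕜 (E ⧸ (Submodule.span 𝕜 (Set.range x)).topologicalClosure)
  · exact concl_fd C D f h1 h0 hxC hfD h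
  · exact concl_inf C D f h1 h0 hxC hfD h

end Pool.Agent.W701
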