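import Pool.Agent.W668.Uni.Stmts

/-!
# UNI-ORB: orbits of `p' = q, q' = f(p) q - p` starting at `(y, 0)` are `2τ`-periodic
-/

set_option autoImplicit false

open Set MeasureTheory Filter
open scoped ContDiff Topology NNReal

namespace Pool.Agent.W701.UniOrb

noncomputable section

/-- the autonomous vector field -/
def vf (f : ℝ → ℝ) (Z : ℝ × ℝ) : ℝ × ℝ := (Z.2, f Z.1 * Z.2 - Z.1)

theorem vf_smooth {f : ℝ → ℝ} (hf : ContDiff ℝ ∞ f) : ContDiff ℝ 1 (vf f) := by
  have hf1 : ContDiff ℝ 1 f := hf.of_le (by exact_mod_cast le_top)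
  unfold vf
  exact contDiff_snd.prodMk (((hf1.comp contDiff_fst).mul contDiff_snd).sub contDiff_fst)

/-- uniqueness for `Z' = g(t) • w(Z)` on `[a,b]` -/
theorem uniq {w : ℝ × ℝ → ℝ × ℝ} (hw : ContDiff ℝ 1 w) {g : ℝ → ℝ} {a b : ℝ}
    (hg : ContinuousOn g (Icc a b)) {Z₁ Z₂ : ℝ → ℝ × ℝ}
    (h1 : ContinuousOn Z₁ (Icc a b)) (h2 : ContinuousOn Z₂ (Icc a b))
    (d1 : ∀ t ∈ Ico a b, HasDerivWithinAt Z₁ (g t • w (Z₁ t)) (Ici t) t)
    (d2 : ∀ t ∈ Ico a b, HasDerivWithinAt Z₂ (g t • w (Z₂ t)) (Ici t) t)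
    (h0 : Z₁ a = Z₂ a) : EqOn Z₁ Z₂ (Icc a b) := by
  obtain ⟨R₁, hR₁⟩ := (isCompact_Icc.image_of_continuousOn h1).isBounded.subset_closedBall 0
  obtain ⟨R₂, hR₂⟩ := (isCompact_Icc.image_of_continuousOn h2).isBounded.subset_closedBall 0
  obtain ⟨M, hM⟩ := isCompact_Icc.exists_bound_of_continuousOn hg
  set R := max R₁ R₂ with hR
  obtain ⟨K, hK⟩ := (hw.contDiffOn (s := Metric.closedBall (0 : ℝ × ℝ) R)).exists_lipschitzOnWith
    one_ne_zero (convex_closedBall _ _) (isCompact_closedBall _ _)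
  refine ODE_solution_unique_of_mem_Icc_right (K := Real.toNNReal M * K)
    (v := fun t Z => g t • w Z) (s := fun _ => Metric.closedBall (0 : ℝ × ℝ) R)
    ?_ h1 d1 ?_ h2 d2 ?_ h0
  · intro t ht
    refine LipschitzOnWith.of_dist_le_mul fun x hx y hy => ?_
    have h3 := hK.dist_le_mul x hx y hy
    have h4 := hM t ⟨ht.1, ht.2.le⟩
    rw [dist_smul₀]
    have hM0 : 0 ≤ M := le_trans (norm_nonneg _) h4
    rw [NNReal.coe_mul, Real.coe_toNNReal M hM0, mul_assoc]
    exact mul_le_mul h4 h3 dist_nonneg hM0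
  · intro t ht
    exact Metric.closedBall_subset_closedBall (le_max_left _ _)
      (hR₁ (mem_image_of_mem _ ⟨ht.1, ht.2.le⟩))
  · intro t ht
    exact Metric.closedBall_subset_closedBall (le_max_right _ _)
      (hR₂ (mem_image_of_mem _ ⟨ht.1, ht.2.le⟩))

/-- global uniqueness for the autonomous equation -/
theorem uniq_global {w : ℝ × ℝ → ℝ × ℝ} (hw : ContDiff ℝ 1 w) {Z₁ Z₂ : ℝ → ℝ × ℝ}
    (d1 : ∀ t, HasDerivAt Z₁ (w (Z₁ t)) t) (d2 : ∀ t, HasDerivAt Z₂ (w (Z₂ t)) t)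
    (a : ℝ) (h0 : Z₁ a = Z₂ a) (t : ℝ) : Z₁ t = Z₂ t := by
  rcases le_total a t with h | h
  · refine uniq (g := fun _ => (1 : ℝ)) hw continuousOn_const
      (fun s _ => (d1 s).continuousAt.continuousWithinAt)
      (fun s _ => (d2 s).continuousAt.continuousWithinAt)
      (fun s _ => ?_) (fun s _ => ?_) h0 ⟨h, le_rfl⟩
    · simpa using (d1 s).hasDerivWithinAt
    · simpa using (d2 s).hasDerivWithinAt
  · have e1 : ∀ s, HasDerivAt (fun s => Z₁ (-s)) ((-1 : ℝ) • w (Z₁ (-s))) s := fun s =>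
      HasDerivAt.scomp s (d1 (-s)) (hasDerivAt_neg s)
    have e2 : ∀ s, HasDerivAt (fun s => Z₂ (-s)) ((-1 : ℝ) • w (Z₂ (-s))) s := fun s =>
      HasDerivAt.scomp s (d2 (-s)) (hasDerivAt_neg s)
    have := uniq (g := fun _ => (-1 : ℝ)) (a := -a) (b := -t) hw continuousOn_const
      (fun s _ => (e1 s).continuousAt.continuousWithinAt)
      (fun s _ => (e2 s).continuousAt.continuousWithinAt)
      (fun s _ => (e1 s).hasDerivWithinAt) (fun s _ => (e2 s).hasDerivWithinAt)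
      (by simpa using h0) (x := -t) ⟨by linarith, le_rfl⟩
    simpa using this

theorem quarter_cont {f : ℝ → ℝ} (hf : ContDiff ℝ ∞ f) {y : ℝ}
    {r : ℝ → ℝ} (hr : Continuous r) (hpos : ∀ t, 0 < r t)
    (heq : ∀ t ∈ Icc (0 : ℝ) (Real.pi / 2), r t ^ 2 * Real.sin t ^ 2 = Real.sin t ^ 2
      - 2 * ∫ s in (0 : ℝ)..t, Real.sin s ^ 2 * f (y * Real.cos s) * r s)
    {p q : ℝ → ℝ} (hp : ∀ t, HasDerivAt p (q t) t)
    (hq : ∀ t, HasDerivAt q (f (p t) * q t - p t) t) (hp0 : p 0 = y) (hq0 : q 0 = 0) :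
    p (-(∫ t in (0 : ℝ)..(Real.pi / 2), 1 / r t)) = 0 := by
  have hpi : (0 : ℝ) < Real.pi / 2 := by positivity
  have hfc : Continuous f := hf.continuous
  -- the time function
  have hinv : Continuous (fun t => 1 / r t) :=
    continuous_const.div hr fun t => (hpos t).ne'
  have hT : ∀ ϑ, HasDerivAt (fun ϑ => ∫ s in (0 : ℝ)..ϑ, 1 / r s) (1 / r ϑ) ϑ := fun ϑ =>
    intervalIntegral.integral_hasDerivAt_right (hinv.intervalIntegrable _ _)
      hinv.aestronglyMeasurable.stronglyMeasurableAtFilter hinv.continuousAt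
  have hTn : ∀ ϑ, HasDerivAt (fun ϑ => -∫ s in (0 : ℝ)..ϑ, 1 / r s) (-(1 / r ϑ)) ϑ :=
    fun ϑ => (hT ϑ).neg
  -- the function G
  have hGc : Continuous (fun s => Real.sin s ^ 2 * f (y * Real.cos s) * r s) := by fun_prop
  set G : ℝ → ℝ := fun t => Real.sin t ^ 2
      - 2 * ∫ s in (0 : ℝ)..t, Real.sin s ^ 2 * f (y * Real.cos s) * r s with hG
  have hGd : ∀ t, HasDerivAt G (2 * Real.sin t * Real.cos t
      - 2 * (Real.sin t ^ 2 * f (y * Real.cos t) * r t)) t := by
    intro t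
    have h1 : HasDerivAt (fun t => Real.sin t ^ 2) (2 * Real.sin t * Real.cos t) t := by
      have := (Real.hasDerivAt_sin t).pow 2
      refine HasDerivAt.congr_deriv (f := fun t => Real.sin t ^ 2) this ?_
      simp
    have h2 : HasDerivAt (fun t => ∫ s in (0 : ℝ)..t, Real.sin s ^ 2 * f (y * Real.cos s) * r s)
        (Real.sin t ^ 2 * f (y * Real.cos t) * r t) t :=
      intervalIntegral.integral_hasDerivAt_right (hGc.intervalIntegrable _ _)
        hGc.aestronglyMeasurable.stronglyMeasurableAtFilter hGc.continuousAt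
    exact h1.sub (h2.const_mul 2)
  set U : ℝ → ℝ := fun t => r t * Real.sin t with hU
  have hUc : Continuous U := hr.mul Real.continuous_sin
  set u' : ℝ → ℝ := fun t => Real.cos t / r t - f (y * Real.cos t) * Real.sin t with hu'
  have hu'c : Continuous u' := by
    have : Continuous (fun t => Real.cos t / r t) :=
      Real.continuous_cos.div hr fun t => (hpos t).ne'
    exact this.sub (by fun_prop)
  have hUd : ∀ t ∈ Ioo (0 : ℝ) (Real.pi / 2), HasDerivAt U (u' t) t := by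
    intro t ht
    have hs : 0 < Real.sin t := Real.sin_pos_of_pos_of_lt_pi ht.1 (by linarith [ht.2, Real.pi_pos])
    have hGt : G t = U t ^ 2 := by
      rw [hU, hG]
      have := heq t ⟨ht.1.le, ht.2.le⟩
      simp only
      rw [mul_pow, this]
    have hUt : 0 < U t := mul_pos (hpos t) hs
    have h1 : HasDerivAt (fun t => Real.sqrt (G t))
        ((2 * Real.sin t * Real.cos t
      - 2 * (Real.sin t ^ 2 * f (y * Real.cos t) * r t)) / (2 * Real.sqrt (G t))) t :=
      (hGd t).sqrt (by rw [hGt]; positivity)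
    have h2 : U =ᶠ[𝓝 t] fun t => Real.sqrt (G t) := by
      filter_upwards [Ioo_mem_nhds ht.1 ht.2] with s hs'
      have hss : 0 < Real.sin s :=
        Real.sin_pos_of_pos_of_lt_pi hs'.1 (by linarith [hs'.2, Real.pi_pos])
      have := heq s ⟨hs'.1.le, hs'.2.le⟩
      have h3 : G s = U s ^ 2 := by
        rw [hU, hG]
        simp only
        rw [mul_pow, this]
      rw [h3, Real.sqrt_sq (mul_pos (hpos s) hss).le]
    refine (h1.congr_of_eventuallyEq h2).congr_deriv ?_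
    rw [hGt, Real.sqrt_sq hUt.le, hU, hu']
    have := (hpos t).ne'
    have := hs.ne'
    field_simp
  have hU0 : HasDerivWithinAt U (u' 0) (Ici 0) 0 := by
    refine hasDerivWithinAt_Ici_of_tendsto_deriv (s := Ioo 0 (Real.pi / 2))
      (fun t ht => (hUd t ht).differentiableAt.differentiableWithinAt)
      hUc.continuousAt.continuousWithinAt (Ioo_mem_nhdsGT hpi) ?_
    have h1 : Tendsto u' (𝓝[>] 0) (𝓝 (u' 0)) := hu'c.continuousAt.tendsto.mono_left nhdsWithin_le_nhds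
    refine h1.congr' ?_
    filter_upwards [Ioo_mem_nhdsGT hpi] with t ht
    exact (hUd t ht).deriv.symm
  have hUr : ∀ t ∈ Ico (0 : ℝ) (Real.pi / 2), HasDerivWithinAt U (u' t) (Ici t) t := by
    intro t ht
    rcases ht.1.eq_or_lt with h | h
    · rw [← h]; exact hU0
    · exact (hUd t ⟨h, ht.2⟩).hasDerivWithinAt
  -- uniqueness
  have hpd : ∀ ϑ, HasDerivAt (fun ϑ => p (-∫ s in (0 : ℝ)..ϑ, 1 / r s))
      (-(1 / r ϑ) * q (-∫ s in (0 : ℝ)..ϑ, 1 / r s)) ϑ := by
    intro ϑ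
    have := (hp (-∫ s in (0 : ℝ)..ϑ, 1 / r s)).comp ϑ (hTn ϑ)
    rw [mul_comm] at this
    exact this
  have hqd : ∀ ϑ, HasDerivAt (fun ϑ => q (-∫ s in (0 : ℝ)..ϑ, 1 / r s))
      (-(1 / r ϑ) * (f (p (-∫ s in (0 : ℝ)..ϑ, 1 / r s)) * q (-∫ s in (0 : ℝ)..ϑ, 1 / r s)
        - p (-∫ s in (0 : ℝ)..ϑ, 1 / r s))) ϑ := by
    intro ϑ
    have := (hq (-∫ s in (0 : ℝ)..ϑ, 1 / r s)).comp ϑ (hTn ϑ)
    rw [mul_comm] at this
    exact this
  have key : EqOn (fun ϑ => (p (-∫ s in (0 : ℝ)..ϑ, 1 / r s), q (-∫ s in (0 : ℝ)..ϑ, 1 / r s)))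
      (fun ϑ => (y * Real.cos ϑ, y * U ϑ)) (Icc 0 (Real.pi / 2)) := by
    refine uniq (g := fun t => -(1 / r t)) (vf_smooth hf) hinv.neg.continuousOn
      (fun ϑ _ => ((hpd ϑ).continuousAt.prodMk (hqd ϑ).continuousAt).continuousWithinAt)
      (by fun_prop) ?_ ?_ ?_
    · intro t _
      refine (((hpd t).prodMk (hqd t)).hasDerivWithinAt (s := Ici t)).congr_deriv ?_
      rfl
    · intro t ht
      have h1 : HasDerivWithinAt (fun ϑ => y * Real.cos ϑ) (y * (-Real.sin t)) (Ici t) t :=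
        ((Real.hasDerivAt_cos t).const_mul y).hasDerivWithinAt
      refine (h1.prodMk ((hUr t ht).const_mul y)).congr_deriv ?_
      have hrt := (hpos t).ne'
      simp only [vf, hU, hu', Prod.smul_mk, smul_eq_mul, Prod.mk.injEq]
      constructor <;> field_simp
      ring
    · simp [hp0, hq0, hU]
  have h := key (x := Real.pi / 2) ⟨hpi.le, le_rfl⟩
  simp only [Real.cos_pi_div_two, mul_zero, Prod.mk.injEq] at h
  exact h.1

theorem quarter {f : ℝ → ℝ} (hf : ContDiff ℝ ∞ f) {y : ℝ}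
    {r : ℝ → ℝ} (hr : ContinuousOn r (Icc 0 (Real.pi / 2)))
    (hpos : ∀ t ∈ Icc (0 : ℝ) (Real.pi / 2), 0 < r t)
    (heq : ∀ t ∈ Icc (0 : ℝ) (Real.pi / 2), r t ^ 2 * Real.sin t ^ 2 = Real.sin t ^ 2
      - 2 * ∫ s in (0 : ℝ)..t, Real.sin s ^ 2 * f (y * Real.cos s) * r s)
    {p q : ℝ → ℝ} (hp : ∀ t, HasDerivAt p (q t) t)
    (hq : ∀ t, HasDerivAt q (f (p t) * q t - p t) t) (hp0 : p 0 = y) (hq0 : q 0 = 0) :
    p (-(∫ t in (0 : ℝ)..(Real.pi / 2), 1 / r t)) = 0 := by
  have hpi : (0 : ℝ) ≤ Real.pi / 2 := by positivity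
  set R : ℝ → ℝ := fun t => r (projIcc 0 (Real.pi / 2) hpi t) with hR
  have hRr : ∀ t ∈ Icc (0 : ℝ) (Real.pi / 2), R t = r t := fun t ht => by
    rw [hR]; simp only; rw [projIcc_of_mem hpi ht]
  have hRc : Continuous R := by
    have := (continuousOn_iff_continuous_domRestrict.1 hr).comp (continuous_projIcc (h := hpi))
    exact this
  have hRpos : ∀ t, 0 < R t := fun t => hpos _ (projIcc 0 (Real.pi / 2) hpi t).2
  have h := quarter_cont hf (y := y) hRc hRpos (fun t ht => by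
    rw [hRr t ht, heq t ht]
    congr 2
    refine intervalIntegral.integral_congr fun s hs => ?_
    rw [uIcc_of_le ht.1] at hs
    rw [hRr s ⟨hs.1, hs.2.trans ht.2⟩]) hp hq hp0 hq0
  have h' : (∫ t in (0 : ℝ)..(Real.pi / 2), 1 / r t)
      = ∫ t in (0 : ℝ)..(Real.pi / 2), 1 / R t := by
    refine intervalIntegral.integral_congr fun s hs => ?_
    rw [uIcc_of_le hpi] at hs
    rw [hRr s hs]
  rw [h', h]

/-- reflection -/
theorem refl {f : ℝ → ℝ} (hf : ContDiff ℝ ∞ f) (hodd : ∀ p, f (-p) = -f p)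
    {p q : ℝ → ℝ} (hp : ∀ t, HasDerivAt p (q t) t)
    (hq : ∀ t, HasDerivAt q (f (p t) * q t - p t) t) {a : ℝ} (ha : p a = 0) (t : ℝ) :
    p (2 * a - t) = - p t ∧ q (2 * a - t) = q t := by
  have hs : ∀ t, HasDerivAt (fun t => 2 * a - t) (-1) t := fun t => by
    simpa using (hasDerivAt_id t).const_sub (2 * a)
  have h := uniq_global (w := vf f) (vf_smooth hf)
    (Z₁ := fun t => (- p (2 * a - t), q (2 * a - t))) (Z₂ := fun t => (p t, q t))
    (fun t => by
      have h1 : HasDerivAt (fun t => - p (2 * a - t)) (- (q (2 * a - t) * (-1))) t :=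
        ((hp (2 * a - t)).comp t (hs t)).neg
      have h2 : HasDerivAt (fun t => q (2 * a - t))
        ((f (p (2 * a - t)) * q (2 * a - t) - p (2 * a - t)) * (-1)) t :=
        (hq (2 * a - t)).comp t (hs t)
      refine (h1.prodMk h2).congr_deriv ?_
      simp only [vf, hodd, Prod.mk.injEq]
      constructor <;> ring)
    (fun t => by
      have := (hp t).prodMk (hq t)
      exact this) a (by
        have : 2 * a - a = a := by ring
        simp [this, ha]) t
  simp only [Prod.mk.injEq] at h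
  exact ⟨by linarith [h.1], h.2⟩

theorem orb : Pool.Agent.W668.Uni.P_orb := by
  intro f hf hodd y τ hy hQ p q hp hq hp0 hq0
  obtain ⟨r₁, r₂, hr1, hr2, hr, hτ⟩ := hQ
  have hpi : (0 : ℝ) ≤ Real.pi / 2 := by positivity
  have h1 := quarter hf hr1 (fun t ht => (hr t ht).1) (fun t ht => (hr t ht).2.2.1)
    hp hq hp0 hq0
  have h2 := quarter (f := fun x => - f x) (y := y) (r := r₂) hf.neg hr2
    (fun t ht => (hr t ht).2.1)
    (fun t ht => by
      rw [(hr t ht).2.2.2]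
      have : ∫ s in (0 : ℝ)..t, Real.sin s ^ 2 * -f (y * Real.cos s) * r₂ s
          = - ∫ s in (0 : ℝ)..t, Real.sin s ^ 2 * f (y * Real.cos s) * r₂ s := by
        rw [← intervalIntegral.integral_neg]
        refine intervalIntegral.integral_congr fun s _ => ?_
        ring
      rw [this]
      ring)
    (p := fun t => p (-t)) (q := fun t => - q (-t))
    (fun t => by
      refine ((hp (-t)).comp t (hasDerivAt_neg t)).congr_deriv ?_
      ring)
    (fun t => by
      refine (((hq (-t)).comp t (hasDerivAt_neg t)).neg).congr_deriv ?_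
      ring)
    (by simpa using hp0) (by simpa using hq0)
  simp only [neg_neg] at h2
  set T₁ := ∫ t in (0 : ℝ)..(Real.pi / 2), 1 / r₁ t with hT1
  set T₂ := ∫ t in (0 : ℝ)..(Real.pi / 2), 1 / r₂ t with hT2
  have hsum : T₁ + T₂ = τ := by
    rw [← hτ, hT1, hT2, ← intervalIntegral.integral_add]
    · refine (ContinuousOn.div continuousOn_const ?_ ?_).intervalIntegrable
      · rw [uIcc_of_le hpi]; exact hr1
      · intro t ht
        rw [uIcc_of_le hpi] at ht
        exact (hr t ht).1.ne'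
    · refine (ContinuousOn.div continuousOn_const ?_ ?_).intervalIntegrable
      · rw [uIcc_of_le hpi]; exact hr2
      · intro t ht
        rw [uIcc_of_le hpi] at ht
        exact (hr t ht).2.1.ne'
  intro t
  have e1 := refl hf hodd hp hq h1 t
  have e2 := refl hf hodd hp hq h2 (2 * (-T₁) - t)
  have e3 : 2 * T₂ - (2 * (-T₁) - t) = t + 2 * τ := by rw [← hsum]; ring
  rw [e3] at e2
  exact ⟨by rw [e2.1, e1.1, neg_neg], by rw [e2.2, e1.2]⟩

end

end Pool.Agent.W701.UniOrb
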