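import Pool.Agent.W527.CL.Stm

/-!
# Project CL, part POS
-/

namespace Pool.Agent.W701.CLPOS

open Pool.Agent.W527.CL

theorem t_POS : S_POS := by
  intro K _ _ D k j hk3 hk4
  have h1 : (starRingEnd ℂ) (D.β k) = D.β k := by
    rw [D.conj, Equiv.swap_apply_of_ne_of_ne hk3 hk4]
  obtain ⟨x, hx⟩ := Complex.conj_eq_iff_real.1 h1
  have h2 := D.root k
  rw [hx] at h2
  have h3 : x ^ 5 - 4 * x + 2 = 0 := by exact_mod_cast h2
  have h4 : -3 < x := by
    by_contra hcon
    push Not at hcon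
    have h5 : 0 ≤ (-x - 3) := by linarith
    have h6 : x ^ 5 - 4 * x + 2 < 0 := by
      have h7 : (9 : ℝ) ≤ x ^ 2 := by nlinarith
      have h8 : (81 : ℝ) ≤ x ^ 4 := by
        have : x ^ 4 = x ^ 2 * x ^ 2 := by ring
        rw [this]
        nlinarith
      have h9 : x ^ 5 = x ^ 4 * x := by ring
      rw [h9]
      nlinarith
    linarith
  have h10 : (3 : ℝ) ≤ (nn j : ℝ) := by
    fin_cases j <;> norm_num [nn]
  refine ⟨x + nn j, by linarith, ?_⟩
  rw [hx]
  push_cast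
  rfl

end Pool.Agent.W701.CLPOS
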