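import Mathlib
import Pool.Agent.W960.HC.Defs

/-! Transfer of limit cycles through a linear change of coordinates. -/

open Set Topology Filter MeasureTheory

namespace Pool.Agent.W701.HC

open Pool.Agent.W960.HC

/-- closed orbits are transported by a linear conjugacy -/
theorem closed_image {V₁ V₂ : ℝ × ℝ → ℝ × ℝ} (e : (ℝ × ℝ) ≃L[ℝ] (ℝ × ℝ))
    (hV : ∀ p, V₂ (e p) = e (V₁ p)) {D : Set (ℝ × ℝ)} (hD : D ∈ Closed V₁) :
    e '' D ∈ Closed V₂ := by
  obtain ⟨γ, T, hT, hder, hper, ⟨t₀, ht₀⟩, rfl⟩ := hD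
  refine ⟨fun t => e (γ t), T, hT, ?_, ?_, ⟨t₀, ?_⟩, ?_⟩
  · intro t
    have h1 := (e.toContinuousLinearMap.hasFDerivAt (x := γ t)).comp_hasDerivAt t (hder t)
    have h2 : HasDerivAt (fun t => e (γ t)) (e (V₁ (γ t))) t := h1
    rw [hV]
    exact h2
  · intro t
    show e (γ (t + T)) = e (γ t)
    rw [hper t]
  · intro h
    exact ht₀ (e.injective h)
  · rw [← Set.range_comp]
    rfl

/-- limit cycles are transported by a linear conjugacy -/
theorem cyc_image {V₁ V₂ : ℝ × ℝ → ℝ × ℝ} (e : (ℝ × ℝ) ≃L[ℝ] (ℝ × ℝ))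
    (hV : ∀ p, V₂ (e p) = e (V₁ p)) {C : Set (ℝ × ℝ)} (hC : C ∈ Cyc V₁) :
    e '' C ∈ Cyc V₂ := by
  obtain ⟨hCl, U, hU, hCU, hiso⟩ := hC
  have hV' : ∀ p, V₁ (e.symm p) = e.symm (V₂ p) := by
    intro p
    have h := hV (e.symm p)
    rw [e.apply_symm_apply] at h
    rw [h, e.symm_apply_apply]
  refine ⟨closed_image e hV hCl, e.symm ⁻¹' U, hU.preimage e.symm.continuous, ?_, ?_⟩
  · rintro _ ⟨p, hp, rfl⟩
    show e.symm (e p) ∈ U
    rw [e.symm_apply_apply]
    exact hCU hp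
  · intro D hD hne
    have h1 := closed_image e.symm hV' hD
    have h2 : ((e.symm '' D) ∩ U).Nonempty := by
      obtain ⟨q, hq, hqU⟩ := hne
      exact ⟨e.symm q, ⟨q, hq, rfl⟩, hqU⟩
    have h3 := hiso _ h1 h2
    rw [← h3]
    ext q
    constructor
    · intro hq
      exact ⟨e.symm q, ⟨q, hq, rfl⟩, e.apply_symm_apply q⟩
    · rintro ⟨_, ⟨q', hq', rfl⟩, rfl⟩
      rw [e.apply_symm_apply]
      exact hq'

/-- the number of limit cycles does not drop under a linear conjugacy -/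
theorem encard_cyc_le {V₁ V₂ : ℝ × ℝ → ℝ × ℝ} (e : (ℝ × ℝ) ≃L[ℝ] (ℝ × ℝ))
    (hV : ∀ p, V₂ (e p) = e (V₁ p)) : (Cyc V₁).encard ≤ (Cyc V₂).encard := by
  have hinj : Function.Injective (fun C : Set (ℝ × ℝ) => e '' C) := e.injective.image_injective
  rw [← hinj.encard_image]
  apply Set.encard_le_encard
  rintro _ ⟨C, hC, rfl⟩
  exact cyc_image e hV hC

/-- the shear `(x, y) ↦ (x, y - α x)` -/
noncomputable def shear (α : ℝ) : (ℝ × ℝ) ≃L[ℝ] (ℝ × ℝ) :=
  LinearEquiv.toContinuousLinearEquiv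
    { toFun := fun p => (p.1, p.2 - α * p.1)
      invFun := fun p => (p.1, p.2 + α * p.1)
      map_add' := by
        intro p q
        ext
        · simp
        · simp
          ring
      map_smul' := by
        intro r p
        ext
        · simp
        · simp
          ring
      left_inv := by
        intro p
        ext <;> simp
      right_inv := by
        intro p
        ext <;> simp }

theorem shear_apply (α : ℝ) (p : ℝ × ℝ) : shear α p = (p.1, p.2 - α * p.1) := rfl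

theorem transfer {a c ε : ℝ} (h : 2 < (Cyc (fld a c ε)).encard) :
    ∃ P Q : MvPolynomial (Fin 2) ℝ, P.IsHomogeneous 1 ∧ Q.IsHomogeneous 3 ∧
      2 < (Cyc fun p : ℝ × ℝ => (MvPolynomial.eval (![p.1, p.2] : Fin 2 → ℝ) P,
        MvPolynomial.eval (![p.1, p.2] : Fin 2 → ℝ) Q)).encard := by
  set α : ℝ := ε * a with hα
  have hX0 : (MvPolynomial.X 0 : MvPolynomial (Fin 2) ℝ).IsHomogeneous 1 :=
    MvPolynomial.isHomogeneous_X ℝ 0
  have hX1 : (MvPolynomial.X 1 : MvPolynomial (Fin 2) ℝ).IsHomogeneous 1 :=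
    MvPolynomial.isHomogeneous_X ℝ 1
  have hC : ∀ r : ℝ, (MvPolynomial.C r : MvPolynomial (Fin 2) ℝ).IsHomogeneous 0 :=
    fun r => MvPolynomial.isHomogeneous_C _ r
  have hV : (MvPolynomial.X 1 + MvPolynomial.C α * MvPolynomial.X 0 :
      MvPolynomial (Fin 2) ℝ).IsHomogeneous 1 := by
    refine hX1.add ?_
    have := (hC α).mul hX0
    simpa using this
  refine ⟨MvPolynomial.X 1 + MvPolynomial.C α * MvPolynomial.X 0,
    -MvPolynomial.X 0 ^ 3
      + MvPolynomial.X 0 * (MvPolynomial.X 1 + MvPolynomial.C α * MvPolynomial.X 0) ^ 2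
      + MvPolynomial.C (ε * c) * (MvPolynomial.X 0 ^ 2 *
        (MvPolynomial.X 1 + MvPolynomial.C α * MvPolynomial.X 0))
      + MvPolynomial.C ε * (MvPolynomial.X 1 + MvPolynomial.C α * MvPolynomial.X 0) ^ 3,
    hV, ?_, ?_⟩
  · refine ((?_ : MvPolynomial.IsHomogeneous _ 3).add ?_).add ?_
    · refine MvPolynomial.IsHomogeneous.add ?_ ?_
      · have := (hX0.pow 3).neg
        simpa using this
      · have := hX0.mul (hV.pow 2)
        simpa using this
    · have := (hC (ε * c)).mul ((hX0.pow 2).mul hV)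
      simpa using this
    · have := (hC ε).mul (hV.pow 3)
      simpa using this
  · refine lt_of_lt_of_le h (encard_cyc_le (shear α) ?_)
    intro p
    simp only [shear_apply, fld, map_add, map_mul, map_neg, map_pow, MvPolynomial.eval_X,
      MvPolynomial.eval_C, Matrix.cons_val_zero, Matrix.cons_val_one]
    ext
    · simp
    · simp
      rw [hα]
      ring

theorem frozen (hE : ∃ a c ε : ℝ, 2 < (Cyc (fld a c ε)).encard) :
    ¬ (∀ n m : ℕ, Odd n → Odd m → n ≠ m →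
      IsGreatest
        {k : ℕ∞ | ∃ P Q : MvPolynomial (Fin 2) ℝ, P.IsHomogeneous n ∧ Q.IsHomogeneous m ∧
          Set.encard
            {C : Set (ℝ × ℝ) |
              C ∈ {D : Set (ℝ × ℝ) | ∃ γ : ℝ → ℝ × ℝ, ∃ T : ℝ, 0 < T ∧
                  (∀ t : ℝ, HasDerivAt γ
                    (MvPolynomial.eval (![(γ t).1, (γ t).2] : Fin 2 → ℝ) P,
                     MvPolynomial.eval (![(γ t).1, (γ t).2] : Fin 2 → ℝ) Q) t) ∧
                  (∀ t : ℝ, γ (t + T) = γ t) ∧ (∃ t : ℝ, γ t ≠ γ 0) ∧ D = Set.range γ} ∧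
              ∃ U : Set (ℝ × ℝ), IsOpen U ∧ C ⊆ U ∧
                ∀ D ∈ {D : Set (ℝ × ℝ) | ∃ γ : ℝ → ℝ × ℝ, ∃ T : ℝ, 0 < T ∧
                  (∀ t : ℝ, HasDerivAt γ
                    (MvPolynomial.eval (![(γ t).1, (γ t).2] : Fin 2 → ℝ) P,
                     MvPolynomial.eval (![(γ t).1, (γ t).2] : Fin 2 → ℝ) Q) t) ∧
                  (∀ t : ℝ, γ (t + T) = γ t) ∧ (∃ t : ℝ, γ t ≠ γ 0) ∧ D = Set.range γ},
                  (D ∩ U).Nonempty → D = C} = k}
        (((n + m) / 2 : ℕ) : ℕ∞)) := by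
  intro H
  obtain ⟨a, c, ε, h⟩ := hE
  obtain ⟨P, Q, hP, hQ, h2⟩ := transfer h
  have h3 := (H 1 3 (by decide) (by decide) (by decide)).2 ⟨P, Q, hP, hQ, rfl⟩
  have h4 : (Cyc fun p : ℝ × ℝ => (MvPolynomial.eval (![p.1, p.2] : Fin 2 → ℝ) P,
        MvPolynomial.eval (![p.1, p.2] : Fin 2 → ℝ) Q)).encard ≤ (((1 + 3) / 2 : ℕ) : ℕ∞) := h3
  have h5 : (((1 + 3) / 2 : ℕ) : ℕ∞) = 2 := by norm_num
  rw [h5] at h4
  exact absurd h2 (not_lt.mpr h4)

end Pool.Agent.W701.HC
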